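import Pool.Agent.T1K.Defs

/-! # T1, row R8: integrals over the unit square -/

set_option autoImplicit false

open MeasureTheory Set

namespace Pool.Agent.Helper57.T1

open Pool.Agent.T1K

/-- integral over the unit square -/
noncomputable def I2 (f : ℝ → ℝ → ℝ) : ℝ := ∫ x in (0 : ℝ)..1, ∫ y in (0 : ℝ)..1, f x y

/-- measurable and bounded on the unit square -/
structure Nice (f : ℝ → ℝ → ℝ) : Prop where
  meas : Measurable (fun p : ℝ × ℝ => f p.1 p.2)
  bdd : ∃ C : ℝ, ∀ x ∈ Icc (0 : ℝ) 1, ∀ y ∈ Icc (0 : ℝ) 1, |f x y| ≤ C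

/-- the unit square -/
def Sq : Set (ℝ × ℝ) := Ioc (0 : ℝ) 1 ×ˢ Ioc (0 : ℝ) 1

lemma measSq : MeasurableSet Sq := measurableSet_Ioc.prod measurableSet_Ioc

lemma volSq : volume Sq = 1 := by
  unfold Sq
  rw [Measure.volume_eq_prod, Measure.prod_prod]
  simp

lemma memSq {p : ℝ × ℝ} (h : p ∈ Sq) : p.1 ∈ Icc (0 : ℝ) 1 ∧ p.2 ∈ Icc (0 : ℝ) 1 :=
  ⟨⟨h.1.1.le, h.1.2⟩, ⟨h.2.1.le, h.2.2⟩⟩

variable {f g : ℝ → ℝ → ℝ}

lemma Nice.integrableOn (hf : Nice f) : IntegrableOn (fun p : ℝ × ℝ => f p.1 p.2) Sq := by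
  obtain ⟨C, hC⟩ := hf.bdd
  refine IntegrableOn.of_bound (by rw [volSq]; exact ENNReal.one_lt_top)
    hf.meas.aestronglyMeasurable C ?_
  refine (ae_restrict_iff' measSq).2 (Filter.Eventually.of_forall fun p hp => ?_)
  exact hC _ (memSq hp).1 _ (memSq hp).2

lemma I2_eq (hf : Nice f) : I2 f = ∫ p in Sq, f p.1 p.2 := by
  unfold I2
  rw [intervalIntegral.integral_of_le zero_le_one]
  have : ∀ x, ∫ y in (0 : ℝ)..1, f x y = ∫ y in Ioc (0 : ℝ) 1, f x y := fun x =>
    intervalIntegral.integral_of_le zero_le_one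
  simp_rw [this]
  have h := hf.integrableOn
  unfold Sq at h ⊢
  rw [Measure.volume_eq_prod] at h ⊢
  rw [setIntegral_prod _ h]

lemma Nice.add (hf : Nice f) (hg : Nice g) : Nice (fun x y => f x y + g x y) := by
  obtain ⟨C, hC⟩ := hf.bdd
  obtain ⟨D, hD⟩ := hg.bdd
  exact ⟨hf.meas.add hg.meas, C + D, fun x hx y hy =>
    (abs_add_le _ _).trans (add_le_add (hC x hx y hy) (hD x hx y hy))⟩

lemma Nice.neg (hf : Nice f) : Nice (fun x y => - f x y) := by
  obtain ⟨C, hC⟩ := hf.bdd
  exact ⟨hf.meas.neg, C, fun x hx y hy => by rw [abs_neg]; exact hC x hx y hy⟩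

lemma Nice.sub (hf : Nice f) (hg : Nice g) : Nice (fun x y => f x y - g x y) := by
  have := hf.add hg.neg
  simpa [sub_eq_add_neg] using this

lemma Nice.mul (hf : Nice f) (hg : Nice g) : Nice (fun x y => f x y * g x y) := by
  obtain ⟨C, hC⟩ := hf.bdd
  obtain ⟨D, hD⟩ := hg.bdd
  refine ⟨hf.meas.mul hg.meas, |C| * |D|, fun x hx y hy => ?_⟩
  rw [abs_mul]
  exact mul_le_mul ((hC x hx y hy).trans (le_abs_self _)) ((hD x hx y hy).trans (le_abs_self _))
    (abs_nonneg _) (abs_nonneg _)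

lemma Nice.const (c : ℝ) : Nice (fun _ _ => c) := ⟨measurable_const, |c|, fun _ _ _ _ => le_rfl⟩

lemma Nice.abs (hf : Nice f) : Nice (fun x y => |f x y|) := by
  obtain ⟨C, hC⟩ := hf.bdd
  refine ⟨?_, C, fun x hx y hy => by rw [abs_abs]; exact hC x hx y hy⟩
  exact measurable_norm.comp hf.meas

lemma Nice.cmul (hf : Nice f) (c : ℝ) : Nice (fun x y => c * f x y) := (Nice.const c).mul hf

lemma I2_add (hf : Nice f) (hg : Nice g) : I2 (fun x y => f x y + g x y) = I2 f + I2 g := by
  rw [I2_eq (hf.add hg), I2_eq hf, I2_eq hg]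
  exact integral_add hf.integrableOn hg.integrableOn

lemma I2_sub (hf : Nice f) (hg : Nice g) : I2 (fun x y => f x y - g x y) = I2 f - I2 g := by
  rw [I2_eq (hf.sub hg), I2_eq hf, I2_eq hg]
  exact integral_sub hf.integrableOn hg.integrableOn

lemma I2_cmul (f : ℝ → ℝ → ℝ) (c : ℝ) : I2 (fun x y => c * f x y) = c * I2 f := by
  unfold I2
  simp_rw [intervalIntegral.integral_const_mul]

lemma I2_mono (hf : Nice f) (hg : Nice g)
    (h : ∀ x ∈ Icc (0 : ℝ) 1, ∀ y ∈ Icc (0 : ℝ) 1, f x y ≤ g x y) : I2 f ≤ I2 g := by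
  rw [I2_eq hf, I2_eq hg]
  refine setIntegral_mono_on hf.integrableOn hg.integrableOn measSq fun p hp => ?_
  exact h _ (memSq hp).1 _ (memSq hp).2

lemma I2_nonneg (h : ∀ x ∈ Icc (0 : ℝ) 1, ∀ y ∈ Icc (0 : ℝ) 1, 0 ≤ f x y) : 0 ≤ I2 f := by
  unfold I2
  refine intervalIntegral.integral_nonneg zero_le_one fun x hx => ?_
  exact intervalIntegral.integral_nonneg zero_le_one fun y hy => h x hx y hy

lemma I2_congr (h : ∀ x ∈ Icc (0 : ℝ) 1, ∀ y ∈ Icc (0 : ℝ) 1, f x y = g x y) : I2 f = I2 g := by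
  unfold I2
  refine intervalIntegral.integral_congr fun x hx => ?_
  rw [uIcc_of_le zero_le_one] at hx
  refine intervalIntegral.integral_congr fun y hy => ?_
  rw [uIcc_of_le zero_le_one] at hy
  exact h x hx y hy

lemma I2_abs_le (hf : Nice f) : |I2 f| ≤ I2 (fun x y => |f x y|) := by
  rw [I2_eq hf, I2_eq hf.abs]
  exact abs_integral_le_integral_abs

lemma I2_const (c : ℝ) : I2 (fun _ _ => c) = c := by
  unfold I2
  simp

/-- integral of a positive power of the distance from the diagonal -/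
lemma int_pow (k : ℕ) {s : ℝ} (h0 : 0 ≤ s) :
    ∫ y in (0 : ℝ)..1, (max 0 (y - s)) ^ (k + 1) = (max 0 (1 - s)) ^ (k + 2) / (k + 2) := by
  rcases le_total s 1 with h1 | h1
  · have hc : Continuous fun y : ℝ => (max 0 (y - s)) ^ (k + 1) := by fun_prop
    rw [← intervalIntegral.integral_add_adjacent_intervals (b := s) (hc.intervalIntegrable _ _)
      (hc.intervalIntegrable _ _)]
    have e1 : ∫ y in (0 : ℝ)..s, (max 0 (y - s)) ^ (k + 1) = 0 := by
      rw [intervalIntegral.integral_congr (g := fun _ => (0 : ℝ))]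
      · simp
      · intro y hy
        rw [uIcc_of_le h0] at hy
        try simp only
        rw [max_eq_left (by linarith [hy.2])]
        simp
    have e2 : ∫ y in s..1, (max 0 (y - s)) ^ (k + 1) = ∫ y in s..1, (y - s) ^ (k + 1) := by
      refine intervalIntegral.integral_congr fun y hy => ?_
      rw [uIcc_of_le h1] at hy
      try simp only
      rw [max_eq_right (by linarith [hy.1])]
    rw [e1, e2, zero_add, intervalIntegral.integral_comp_sub_right (fun x => x ^ (k + 1)) s,
      integral_pow, max_eq_right (by linarith)]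
    simp only [sub_self, Nat.cast_add, Nat.cast_one]
    rw [zero_pow (by omega), sub_zero]
    have e : (k : ℝ) + 1 + 1 = k + 2 := by ring
    rw [e]
  · rw [max_eq_left (by linarith)]
    rw [intervalIntegral.integral_congr (g := fun _ => (0 : ℝ))]
    · simp
    · intro y hy
      rw [uIcc_of_le zero_le_one] at hy
      try simp only
      rw [max_eq_left (by linarith [hy.2])]
      simp

/-- the same from `u` to `1`, in the variable `x` -/
lemma int_pow' (k : ℕ) {b u : ℝ} (hu : u ≤ 1) (hb : 0 ≤ b) :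
    ∫ x in u..1, (max 0 (1 - (x + b))) ^ (k + 1) = (max 0 (1 - (u + b))) ^ (k + 2) / (k + 2) := by
  have h1 : ∫ x in u..1, (max 0 (1 - (x + b))) ^ (k + 1)
      = ∫ x in (0 : ℝ)..(1 - u), (max 0 (x - b)) ^ (k + 1) := by
    have := intervalIntegral.integral_comp_sub_left (fun x => (max 0 (x - b)) ^ (k + 1)) (1 : ℝ)
      (a := u) (b := 1)
    rw [sub_self] at this
    rw [← this]
    refine intervalIntegral.integral_congr fun x _ => ?_
    try simp only
    congr 2
    ring
  rw [h1]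
  have hc : Continuous fun y : ℝ => (max 0 (y - b)) ^ (k + 1) := by fun_prop
  rcases le_total b (1 - u) with h2 | h2
  · rw [← intervalIntegral.integral_add_adjacent_intervals (b := b) (hc.intervalIntegrable _ _)
      (hc.intervalIntegrable _ _)]
    have e1 : ∫ y in (0 : ℝ)..b, (max 0 (y - b)) ^ (k + 1) = 0 := by
      rw [intervalIntegral.integral_congr (g := fun _ => (0 : ℝ))]
      · simp
      · intro y hy
        rw [uIcc_of_le hb] at hy
        try simp only
        rw [max_eq_left (by linarith [hy.2])]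
        simp
    have e2 : ∫ y in b..(1 - u), (max 0 (y - b)) ^ (k + 1) = ∫ y in b..(1 - u), (y - b) ^ (k + 1) := by
      refine intervalIntegral.integral_congr fun y hy => ?_
      rw [uIcc_of_le h2] at hy
      try simp only
      rw [max_eq_right (by linarith [hy.1])]
    rw [e1, e2, zero_add, intervalIntegral.integral_comp_sub_right (fun x => x ^ (k + 1)) b,
      integral_pow, max_eq_right (by linarith)]
    simp only [sub_self, Nat.cast_add, Nat.cast_one]
    rw [zero_pow (by omega), sub_zero]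
    have e : (k : ℝ) + 1 + 1 = k + 2 := by ring
    rw [e, sub_sub]
  · rw [max_eq_left (by linarith)]
    rw [intervalIntegral.integral_congr (g := fun _ => (0 : ℝ))]
    · simp
    · intro y hy
      rw [uIcc_of_le (by linarith : (0 : ℝ) ≤ 1 - u)] at hy
      try simp only
      rw [max_eq_left (by linarith [hy.2])]
      simp

end Pool.Agent.Helper57.T1
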