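import Pool.Agent.Helper57.T1.Leaf

/-! # T1, row R8: the constants, crude estimates at the target -/

set_option autoImplicit false

open MeasureTheory Set

namespace Pool.Agent.Helper57.T1

open Pool.Agent.T1K

/-- the tick sets of a species: all that is used here -/
structure Sp (R σ : ℕ) (T S : Finset ℕ) : Prop where
  hR : 1 ≤ R
  cT : T.card = Kn R
  cS : S.card = Kn R
  mT : ∀ z ∈ T, z ≤ Mn R
  mS : ∀ z ∈ S, z ≤ Mn R
  sT : ∑ z ∈ T, z = σ
  sS : ∑ z ∈ S, z = σ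

lemma Sp.symm {R σ : ℕ} {T S : Finset ℕ} (h : Sp R σ T S) : Sp R σ S T :=
  ⟨h.hR, h.cS, h.cT, h.mS, h.mT, h.sS, h.sT⟩

variable {R σ : ℕ} {T S T' S' : Finset ℕ} {x y b t : ℝ} {z z2 : ℕ}

lemma Kn_ge (hR : 1 ≤ R) : (59050 : ℝ) ≤ Kn R := by
  have : 59050 ≤ Kn R := by unfold Kn; omega
  exact_mod_cast this

lemma Mn_ge (R : ℕ) : 2 * (Kn R : ℝ) ≤ Mn R := by
  have : 2 * Kn R ≤ Mn R := by unfold Mn; omega
  exact_mod_cast this

/-- the normalisation `1 / ((2K+1)(2K+2))` -/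
noncomputable def DD (R : ℕ) : ℝ := 1 / ((2 * (Kn R : ℝ) + 1) * (2 * (Kn R : ℝ) + 2))

lemma DD_pos (R : ℕ) : 0 < DD R := by unfold DD; positivity

lemma an_pos (hR : 1 ≤ R) : 0 < an R := by
  have := Kn_ge hR
  unfold an
  positivity

lemma hn_pos (hR : 1 ≤ R) : 0 < hn R := by
  have := Kn_ge hR
  have := Mn_ge R
  unfold hn
  exact one_div_pos.2 (pow_pos (mul_pos (by linarith) (by linarith)) 16)

/-- `h K M = (K M)^(-15)` -/
lemma hn_mul (hR : 1 ≤ R) : hn R * ((Kn R : ℝ) * Mn R) = 1 / ((Kn R : ℝ) * Mn R) ^ 15 := by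
  have h1 := Kn_ge hR
  have h2 := Mn_ge R
  have h3 : 0 < (Kn R : ℝ) * Mn R := mul_pos (by linarith) (by linarith)
  unfold hn
  rw [pow_succ ((Kn R : ℝ) * Mn R) 15]
  field_simp

lemma KM_ge (hR : 1 ≤ R) : (6 * 10 ^ 9 : ℝ) ≤ (Kn R : ℝ) * Mn R := by
  have h1 := Kn_ge hR
  have h2 := Mn_ge R
  nlinarith

/-- the width of the tick region is at most `a / 1000` -/
lemma hM_le (hR : 1 ≤ R) : hn R * Mn R ≤ an R / 1000 := by
  have h1 := Kn_ge hR
  have h2 := Mn_ge R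
  have h3 := KM_ge hR
  have hK : 0 < (Kn R : ℝ) := by linarith
  have h4 := hn_mul hR
  have h5 : hn R * Mn R = 1 / ((Kn R : ℝ) * Mn R) ^ 15 / Kn R := by
    rw [← h4]; field_simp
  rw [h5]
  unfold an
  rw [div_div, div_div]
  refine one_div_le_one_div_of_le (by positivity) ?_
  have h6 : ((Kn R : ℝ) * Mn R) ^ 1 ≤ ((Kn R : ℝ) * Mn R) ^ 15 :=
    pow_le_pow_right₀ (by linarith) (by norm_num)
  rw [pow_one] at h6
  nlinarith

lemma tk_nonneg (hR : 1 ≤ R) (z : ℕ) : an R ≤ tk R z := by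
  unfold tk
  have := hn_pos hR
  have : 0 ≤ hn R * z := by positivity
  linarith

lemma tk_mono (hR : 1 ≤ R) (h : z ≤ z2) : tk R z ≤ tk R z2 := by
  unfold tk
  have := hn_pos hR
  have : (z : ℝ) ≤ z2 := by exact_mod_cast h
  nlinarith

lemma tk_le (hR : 1 ≤ R) (h : z ≤ Mn R) : tk R z ≤ an R * (1001 / 1000) := by
  refine (tk_mono hR h).trans ?_
  unfold tk
  have := hM_le hR
  linarith

lemma tk_le2 (hR : 1 ≤ R) (h : z ≤ Mn R) : tk R z ≤ 2 * an R := by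
  have := tk_le hR h
  have := an_pos hR
  linarith

lemma an_le (hR : 1 ≤ R) : an R ≤ 1 / 5000000 := by
  have := Kn_ge hR
  unfold an
  exact one_div_le_one_div_of_le (by norm_num) (by linarith)

/-- `(2K+2) a` is about `1/50` -/
lemma an_mul (hR : 1 ≤ R) : (2 * (Kn R : ℝ) + 2) * an R ≤ 201 / 10000 ∧
    1 / 50 ≤ (2 * (Kn R : ℝ) + 2) * an R := by
  have h1 := Kn_ge hR
  have hK : 0 < (Kn R : ℝ) := by linarith
  unfold an
  rw [mul_one_div]
  constructor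
  · rw [div_le_div_iff₀ (by positivity) (by norm_num)]
    nlinarith
  · rw [div_le_div_iff₀ (by norm_num) (by positivity)]
    nlinarith

variable (hp : Sp R σ T S)
include hp

lemma Sp.card : T.card + S.card = (2 * Kn R - 1) + 1 := by
  rw [hp.cT, hp.cS]
  have : 1 ≤ Kn R := by unfold Kn; omega
  omega

lemma Sp.card2 : T.card + S.card = (2 * Kn R - 2) + 2 := by
  rw [hp.cT, hp.cS]
  have : 1 ≤ Kn R := by unfold Kn; omega
  omega

omit hp in
lemma cast1 (R : ℕ) : ((2 * Kn R - 1 : ℕ) : ℝ) = 2 * Kn R - 1 := by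
  have : 1 ≤ 2 * Kn R := by unfold Kn; omega
  push_cast [Nat.cast_sub this]
  ring

omit hp in
lemma cast2 (R : ℕ) : ((2 * Kn R - 2 : ℕ) : ℝ) = 2 * Kn R - 2 := by
  have : 2 ≤ 2 * Kn R := by unfold Kn; omega
  push_cast [Nat.cast_sub this]
  ring

lemma Sp.Vol_le : Vol (tk R) (tk R) T S ≤ DD R := by
  have h := Helper57.T1.Vol_le (c := tk R) (d := tk R) (2 * Kn R - 1) hp.card
  rw [cast1 R] at h
  unfold DD
  convert h using 3 <;> ring

omit hp in
/-- Bernoulli's inequality for the powers used here -/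
lemma bern (R : ℕ) {v : ℝ} (hv1 : v ≤ 1) : 1 - (2 * (Kn R : ℝ) + 2) * v ≤ (1 - v) ^ (2 * Kn R - 1 + 3) := by
  have e : 2 * Kn R - 1 + 3 = 2 * Kn R + 2 := by
    have : 1 ≤ 2 * Kn R := by unfold Kn; omega
    omega
  rw [e]
  have h := one_add_mul_le_pow (a := -v) (by linarith) (2 * Kn R + 2)
  push_cast at h
  have e2 : 1 + (2 * (Kn R : ℝ) + 2) * -v = 1 - (2 * (Kn R : ℝ) + 2) * v := by ring
  rw [e2] at h
  exact h

lemma Sp.Vol_ge : 95 / 100 * DD R ≤ Vol (tk R) (tk R) T S := by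
  have ha := an_pos hp.hR
  have ha2 := an_le hp.hR
  have h := Helper57.T1.Vol_ge (c := tk R) (d := tk R) (b := 2 * an R) (2 * Kn R - 1) hp.card (by linarith)
    (fun z hz => tk_le2 hp.hR (hp.mT z hz)) (fun z hz => tk_le2 hp.hR (hp.mS z hz))
  rw [cast1 R, max_eq_right (by linarith)] at h
  refine le_trans ?_ h
  have h2 := bern R (v := 2 * an R) (by linarith)
  have h3 := (an_mul hp.hR).1
  have h4 : (95 / 100 : ℝ) ≤ (1 - 2 * an R) ^ (2 * Kn R - 1 + 3) := by linarith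
  have e : (1 - 2 * an R) ^ (2 * Kn R - 1 + 3) / ((2 * (Kn R : ℝ) - 1 + 2) * (2 * (Kn R : ℝ) - 1 + 3))
      = (1 - 2 * an R) ^ (2 * Kn R - 1 + 3) * DD R := by
    unfold DD
    rw [mul_one_div]
    congr 2 <;> ring
  rw [e]
  exact mul_le_mul_of_nonneg_right h4 (DD_pos R).le

lemma Sp.Vol_pos : 0 < Vol (tk R) (tk R) T S := by
  have := hp.Vol_ge
  have := DD_pos R
  linarith

/-- `P(x < u) ≤ (2K+2) u` -/
lemma Sp.dX_head {u : ℝ} (h0 : 0 ≤ u) (h1 : u ≤ 1) :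
    ∫ s in (0 : ℝ)..u, dX (tk R) (tk R) T S s ≤ (2 * (Kn R : ℝ) + 2) * u * DD R := by
  have h := Helper57.T1.dX_head (c := tk R) (d := tk R) (2 * Kn R - 1) hp.card h0 h1
  rw [cast1 R] at h
  refine h.trans (le_of_eq ?_)
  have h2 := Kn_ge hp.hR
  have e : (2 * (Kn R : ℝ) - 1 + 2) = 2 * (Kn R : ℝ) + 1 := by ring
  rw [e]
  unfold DD
  have h3 : (2 * (Kn R : ℝ) + 1) ≠ 0 := by linarith
  have h4 : (2 * (Kn R : ℝ) + 2) ≠ 0 := by linarith
  field_simp

lemma Sp.dX_tick (hz : z ≤ Mn R) :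
    ∫ s in (0 : ℝ)..(tk R z), dX (tk R) (tk R) T S s ≤ 3 / 100 * DD R := by
  have h1 := tk_nonneg hp.hR z
  have h2 := tk_le hp.hR hz
  have h3 := an_pos hp.hR
  have h4 := an_le hp.hR
  refine (hp.dX_head (by linarith) (by linarith)).trans ?_
  refine mul_le_mul_of_nonneg_right ?_ (DD_pos R).le
  have h5 := (an_mul hp.hR).1
  have := Kn_ge hp.hR
  nlinarith

/-- the tail of the centre -/
lemma Sp.dX_tail : ∫ s in (1 / 8 : ℝ)..1, dX (tk R) (tk R) T S s ≤ DD R / 1000 := by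
  have h := Helper57.T1.dX_tail (c := tk R) (d := tk R) (2 * Kn R - 1) hp.card
    (u := 1 / 8) (by norm_num) (by norm_num)
  rw [cast1 R] at h
  refine h.trans ?_
  have e : (1 - 1 / 8 : ℝ) ^ (2 * Kn R - 1 + 3) ≤ 1 / 1000 := by
    have h2 : (1 - 1 / 8 : ℝ) ^ (2 * Kn R - 1 + 3) ≤ (1 - 1 / 8 : ℝ) ^ 64 := by
      refine pow_le_pow_of_le_one (by norm_num) (by norm_num) ?_
      have : 64 ≤ Kn R := by
        have := hp.hR
        unfold Kn
        omega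
      omega
    refine h2.trans (by norm_num)
  have e2 : (1 - 1 / 8 : ℝ) ^ (2 * Kn R - 1 + 3) / ((2 * (Kn R : ℝ) - 1 + 2) * (2 * (Kn R : ℝ) - 1 + 3))
      = (1 - 1 / 8 : ℝ) ^ (2 * Kn R - 1 + 3) * DD R := by
    unfold DD
    rw [mul_one_div]
    congr 2 <;> ring
  rw [e2]
  have := DD_pos R
  nlinarith

/-- pointwise bound for the density of a leaf -/
lemma Sp.dL_le (hz : z ∈ T) (ht : t ∈ Icc (0 : ℝ) 1) :
    dL (tk R) (tk R) T S z t ≤ 1001 / 1000 * DD R := by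
  have h := Helper57.T1.dL_le (c := tk R) (d := tk R) (2 * Kn R - 2) hp.card2 hz ht
  rw [cast2 R] at h
  refine h.trans ?_
  have := Kn_ge hp.hR
  unfold DD
  rw [mul_one_div, div_le_div_iff₀ (by nlinarith) (by positivity)]
  nlinarith

lemma Sp.dL_int (hz : z ∈ T) {u v : ℝ} (h0 : 0 ≤ u) (huv : u ≤ v) (h1 : v ≤ 1) :
    ∫ s in u..v, dL (tk R) (tk R) T S z s ≤ (v - u) * (1001 / 1000 * DD R) := by
  have h : ∫ s in u..v, dL (tk R) (tk R) T S z s ≤ ∫ _ in u..v, (1001 / 1000 * DD R) := by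
    refine intervalIntegral.integral_mono_on huv (int_dL_sub h0 huv h1) (by simp) fun s hs => ?_
    exact hp.dL_le hz ⟨h0.trans hs.1, hs.2.trans h1⟩
  rwa [intervalIntegral.integral_const, smul_eq_mul] at h

omit hp in
lemma int_dL_eq {c d : ℕ → ℝ} (hz : z ∈ T) :
    ∫ s in (0 : ℝ)..1, dL c d T S z s = Vol c d T S := by
  rw [cdf_dL hz zero_le_one le_rfl, Vol_eq]
  refine I2_congr fun x hx y hy => ?_
  rcases le_or_gt (y - max x (c z)) 0 with h | h
  · have : W c d T S x y = 0 := by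
      rw [W_erase hz, max_eq_left h, mul_zero]
    rw [this, zero_mul]
  · have : ph (c z) 1 x y = 1 := by
      unfold ph
      rw [min_eq_right hy.2, div_self]
      rw [max_eq_right h.le]
      exact h.ne'
    rw [this, mul_one]

end Pool.Agent.Helper57.T1
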