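import Pool.Agent.Helper57.T1.Const

/-! # T1, row R8: two species have nearly the same law -/

set_option autoImplicit false

open MeasureTheory Set

namespace Pool.Agent.Helper57.T1

open Pool.Agent.T1K

variable {R σ : ℕ} {T S T' S' : Finset ℕ} {x y b t : ℝ} {z z2 : ℕ}

/-- first order expansion of a product -/
lemma prod_expand {Y : ℝ} (hY0 : 0 ≤ Y) (hY1 : Y ≤ 1) (v : ℕ → ℝ) (s : Finset ℕ) :
    (∀ z ∈ s, 0 ≤ v z ∧ v z ≤ Y) →
    0 ≤ ∏ z ∈ s, (Y - v z) ∧ ∏ z ∈ s, (Y - v z) ≤ Y ^ s.card ∧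
    Y ^ s.card - (∑ z ∈ s, v z) * Y ^ (s.card - 1) ≤ ∏ z ∈ s, (Y - v z) ∧
    ∏ z ∈ s, (Y - v z) ≤ Y ^ s.card - (∑ z ∈ s, v z) * Y ^ (s.card - 1) + (∑ z ∈ s, v z) ^ 2 := by
  classical
  induction s using Finset.induction_on with
  | empty => intro _; simp
  | @insert a s ha ih =>
    intro h
    obtain ⟨h0, h1, h2, h3⟩ := ih fun z hz => h z (Finset.mem_insert_of_mem hz)
    have hS : 0 ≤ ∑ z ∈ s, v z :=
      Finset.sum_nonneg fun z hz => (h z (Finset.mem_insert_of_mem hz)).1
    obtain ⟨ha0, ha1⟩ := h a (Finset.mem_insert_self _ _)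
    rw [Finset.prod_insert ha, Finset.sum_insert ha, Finset.card_insert_of_notMem ha,
      Nat.add_sub_cancel]
    set P := ∏ z ∈ s, (Y - v z)
    set Q := ∑ z ∈ s, v z with hQ
    set k := s.card with hk
    have hA : Q * Y ^ (k - 1) * Y = Q * Y ^ k := by
      rcases Nat.eq_zero_or_pos k with h5 | h5
      · have : s = ∅ := Finset.card_eq_zero.1 h5
        rw [hQ, this]
        simp
      · rw [mul_assoc, ← pow_succ, Nat.sub_add_cancel h5]
    have hk0 : 0 ≤ Y ^ k := by positivity
    have hk1 : 0 ≤ Y ^ (k - 1) := by positivity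
    have hk2 : Y ^ (k - 1) ≤ 1 := pow_le_one₀ hY0 hY1
    have hk3 : Y ^ k ≤ 1 := pow_le_one₀ hY0 hY1
    refine ⟨mul_nonneg (by linarith) h0, ?_, ?_, ?_⟩
    · rw [pow_succ]
      nlinarith
    · rw [pow_succ]
      nlinarith [mul_le_mul_of_nonneg_left h2 hY0, mul_le_mul_of_nonneg_left h1 ha0]
    · rw [pow_succ]
      have e1 := mul_le_mul_of_nonneg_right h3 hY0
      have e2 := mul_le_mul_of_nonneg_left h2 ha0
      have e3 : Q ^ 2 * Y ≤ Q ^ 2 := mul_le_of_le_one_right (sq_nonneg _) hY1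
      have e4 : v a * (Q * Y ^ (k - 1)) ≤ v a * Q :=
        mul_le_mul_of_nonneg_left (mul_le_of_le_one_right hS hk2) ha0
      have e5 : 0 ≤ v a * Q := mul_nonneg ha0 hS
      nlinarith

/-- the second order quantity `(h K M)²` -/
noncomputable def E0 (R : ℕ) : ℝ := (hn R * ((Kn R : ℝ) * Mn R)) ^ 2

lemma E0_nonneg (R : ℕ) : 0 ≤ E0 R := sq_nonneg _

lemma hKM_le_one (hR : 1 ≤ R) : hn R * ((Kn R : ℝ) * Mn R) ≤ 1 := by
  rw [hn_mul hR]
  have := KM_ge hR
  rw [div_le_one (by positivity)]
  exact one_le_pow₀ (by linarith)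

lemma hM_le_hKM (hR : 1 ≤ R) : hn R * Mn R ≤ hn R * ((Kn R : ℝ) * Mn R) := by
  have h1 := Kn_ge hR
  have h2 := Mn_ge R
  have h3 := hn_pos hR
  refine mul_le_mul_of_nonneg_left ?_ h3.le
  nlinarith

lemma pow_sub_le {A B : ℝ} (hB : 0 ≤ B) (hAB : B ≤ A) (hA : A ≤ 1) (k : ℕ) :
    A ^ k - B ^ k ≤ k * (A - B) := by
  induction k with
  | zero => simp
  | succ k ih =>
    have h1 : B ^ k ≤ 1 := pow_le_one₀ hB (hAB.trans hA)
    have h2 : 0 ≤ A ^ k - B ^ k := sub_nonneg.2 (pow_le_pow_left₀ hB hAB k)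
    rw [pow_succ, pow_succ]
    push_cast
    have h3 : (A ^ k - B ^ k) * A ≤ (A ^ k - B ^ k) := mul_le_of_le_one_right h2 hA
    have h4 : B ^ k * (A - B) ≤ A - B := mul_le_of_le_one_left (by linarith) h1
    nlinarith

/-- the bound for the difference of the weights of the lower ticks -/
noncomputable def bt (R : ℕ) (x : ℝ) : ℝ :=
  E0 R + (if an R < x ∧ x < an R + hn R * Mn R then hn R * ((Kn R : ℝ) * Mn R) else 0)

lemma bt_ge (hR : 1 ≤ R) (x : ℝ) : E0 R ≤ bt R x := by
  unfold bt
  have h : 0 ≤ hn R * ((Kn R : ℝ) * Mn R) := mul_nonneg (hn_pos hR).le (mul_nonneg (Nat.cast_nonneg _) (Nat.cast_nonneg _))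
  split_ifs <;> linarith

lemma Phi_diff (hR : 1 ≤ R) (cT : T.card = Kn R) (cT' : T'.card = Kn R)
    (mT : ∀ z ∈ T, z ≤ Mn R) (mT' : ∀ z ∈ T', z ≤ Mn R) (hs : ∑ z ∈ T, z = ∑ z ∈ T', z)
    (hx : 0 ≤ x) (hy : y ≤ 1) : |Phi (tk R) T x y - Phi (tk R) T' x y| ≤ bt R x := by
  have hK := Kn_ge hR
  have hh := hn_pos hR
  have ha := an_pos hR
  have hM0 : (0 : ℝ) ≤ Mn R := Nat.cast_nonneg _
  have hhM : 0 ≤ hn R * Mn R := mul_nonneg hh.le hM0
  have htk : ∀ z, z ≤ Mn R → tk R z ≤ an R + hn R * Mn R := fun z hz => tk_mono hR hz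
  rcases le_or_gt x (an R) with h1 | h1
  · refine le_trans ?_ (bt_ge hR x)
    rcases le_or_gt (an R + hn R * Mn R) y with h2 | h2
    · -- expansion
      have key : ∀ U : Finset ℕ, U.card = Kn R → (∀ z ∈ U, z ≤ Mn R) →
          Phi (tk R) U x y = ∏ z ∈ U, ((y - an R) - hn R * z) := by
        intro U _ hU
        unfold Phi
        refine Finset.prod_congr rfl fun z hz => ?_
        rw [max_eq_right (h1.trans (tk_nonneg hR z))]
        have := htk z (hU z hz)
        rw [max_eq_right (by linarith)]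
        unfold tk
        ring
      have key2 : ∀ U : Finset ℕ, U.card = Kn R → (∀ z ∈ U, z ≤ Mn R) →
          ∀ z ∈ U, 0 ≤ hn R * (z : ℝ) ∧ hn R * (z : ℝ) ≤ y - an R := by
        intro U _ hU z hz
        have h3 : (z : ℝ) ≤ Mn R := by exact_mod_cast hU z hz
        refine ⟨by positivity, ?_⟩
        have := mul_le_mul_of_nonneg_left h3 hh.le
        linarith
      have p1 := prod_expand (Y := y - an R) (by linarith) (by linarith) (fun z => hn R * z) T
        (key2 T cT mT)
      have p2 := prod_expand (Y := y - an R) (by linarith) (by linarith) (fun z => hn R * z) T'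
        (key2 T' cT' mT')
      rw [key T cT mT, key T' cT' mT']
      obtain ⟨-, -, p3, p4⟩ := p1
      obtain ⟨-, -, p5, p6⟩ := p2
      have hs2 : ∑ z ∈ T, hn R * (z : ℝ) = ∑ z ∈ T', hn R * (z : ℝ) := by
        rw [← Finset.mul_sum, ← Finset.mul_sum]
        congr 1
        have h9 := congrArg (Nat.cast (R := ℝ)) hs
        rwa [Nat.cast_sum, Nat.cast_sum] at h9
      rw [← hs2, cT'] at p5 p6
      rw [cT] at p3 p4
      have hb : (∑ z ∈ T, hn R * (z : ℝ)) ≤ hn R * ((Kn R : ℝ) * Mn R) := by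
        rw [← Finset.mul_sum]
        refine mul_le_mul_of_nonneg_left ?_ hh.le
        have : ∑ z ∈ T, (z : ℝ) ≤ ∑ _z ∈ T, (Mn R : ℝ) :=
          Finset.sum_le_sum fun z hz => by exact_mod_cast mT z hz
        rwa [Finset.sum_const, cT, nsmul_eq_mul] at this
      have hb0 : 0 ≤ ∑ z ∈ T, hn R * (z : ℝ) := Finset.sum_nonneg fun z _ => by positivity
      have hb2 : (∑ z ∈ T, hn R * (z : ℝ)) ^ 2 ≤ E0 R := by
        unfold E0
        exact pow_le_pow_left₀ hb0 hb 2
      rw [abs_le]
      constructor <;> linarith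
    · -- both are small
      have key : ∀ U : Finset ℕ, U.card = Kn R → 0 ≤ Phi (tk R) U x y ∧ Phi (tk R) U x y ≤ E0 R := by
        intro U hU
        refine ⟨Phi_nonneg _ _ _ _, ?_⟩
        have h3 : Phi (tk R) U x y ≤ (hn R * Mn R) ^ U.card := by
          unfold Phi
          rw [← Finset.prod_const]
          refine Finset.prod_le_prod (fun _ _ => le_max_left _ _) fun z _ => ?_
          refine max_le hhM ?_
          have := tk_nonneg hR z
          have := le_max_right x (tk R z)
          linarith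
        refine h3.trans ?_
        have h4 := hM_le_hKM hR
        have h5 := hKM_le_one hR
        calc (hn R * Mn R) ^ U.card ≤ (hn R * Mn R) ^ 2 := by
              refine pow_le_pow_of_le_one hhM (h4.trans h5) ?_
              rw [hU]
              unfold Kn
              omega
          _ ≤ E0 R := pow_le_pow_left₀ hhM h4 2
      have k1 := key T cT
      have k2 := key T' cT'
      rw [abs_le]
      constructor <;> linarith
  · rcases lt_or_ge x (an R + hn R * Mn R) with h2 | h2
    · have e : bt R x = E0 R + hn R * ((Kn R : ℝ) * Mn R) := by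
        unfold bt
        rw [if_pos ⟨h1, h2⟩]
      rw [e]
      have key : ∀ U : Finset ℕ, U.card = Kn R → (∀ z ∈ U, z ≤ Mn R) →
          (max 0 (y - x - hn R * Mn R)) ^ Kn R ≤ Phi (tk R) U x y ∧
          Phi (tk R) U x y ≤ (max 0 (y - x)) ^ Kn R := by
        intro U hU hUM
        refine ⟨?_, by rw [← hU]; exact Phi_le _ _ _ _⟩
        rw [← hU]
        unfold Phi
        rw [← Finset.prod_const]
        refine Finset.prod_le_prod (fun _ _ => le_max_left _ _) fun z hz => ?_
        refine max_le_max le_rfl ?_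
        have : max x (tk R z) ≤ x + hn R * Mn R :=
          max_le (by linarith) ((htk z (hUM z hz)).trans (by linarith))
        linarith
      have k1 := key T cT mT
      have k2 := key T' cT' mT'
      have hp := pow_sub_le (A := max 0 (y - x)) (B := max 0 (y - x - hn R * Mn R)) (le_max_left _ _)
        (max_le_max le_rfl (by linarith)) (max_le zero_le_one (by linarith)) (Kn R)
      have hq : max 0 (y - x) - max 0 (y - x - hn R * Mn R) ≤ hn R * Mn R := by
        rcases le_total (y - x) 0 with h3 | h3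
        · rw [max_eq_left h3, max_eq_left (by linarith)]; linarith
        · rw [max_eq_right h3]
          linarith [le_max_right 0 (y - x - hn R * Mn R)]
      have hr : (Kn R : ℝ) * (max 0 (y - x) - max 0 (y - x - hn R * Mn R))
          ≤ hn R * ((Kn R : ℝ) * Mn R) := by
        have := mul_le_mul_of_nonneg_left hq (by linarith : (0 : ℝ) ≤ Kn R)
        linarith
      have := E0_nonneg R
      rw [abs_le]
      constructor <;> linarith
    · have key : ∀ U : Finset ℕ, U.card = Kn R → (∀ z ∈ U, z ≤ Mn R) →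
          Phi (tk R) U x y = (max 0 (y - x)) ^ Kn R := by
        intro U hU hUM
        rw [← hU]
        unfold Phi
        rw [← Finset.prod_const]
        refine Finset.prod_congr rfl fun z hz => ?_
        rw [max_eq_left ((htk z (hUM z hz)).trans h2)]
      rw [key T cT mT, key T' cT' mT', sub_self, abs_zero]
      exact (E0_nonneg R).trans (bt_ge hR x)

lemma bt_int (hR : 1 ≤ R) : ∫ x in (0 : ℝ)..1, bt R x ≤ 2 * E0 R := by
  have hK := Kn_ge hR
  have hh := hn_pos hR
  have ha := an_pos hR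
  have hM0 : (0 : ℝ) ≤ Mn R := Nat.cast_nonneg _
  have hhM : 0 ≤ hn R * Mn R := mul_nonneg hh.le hM0
  have h1 := int_ind (a := an R) (v := an R + hn R * Mn R) (w := hn R * ((Kn R : ℝ) * Mn R)) (t := 1)
    ha.le zero_le_one
  have hi : IntervalIntegrable (fun x : ℝ => if an R < x ∧ x < an R + hn R * Mn R then
      hn R * ((Kn R : ℝ) * Mn R) else 0) volume 0 1 := by
    rw [intervalIntegrable_iff_integrableOn_Ioc_of_le zero_le_one]
    refine IntegrableOn.of_bound measure_Ioc_lt_top ?_ (hn R * ((Kn R : ℝ) * Mn R)) ?_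
    · refine (Measurable.ite ?_ measurable_const measurable_const).aestronglyMeasurable
      exact (measurableSet_lt (f := fun _ : ℝ => an R) (g := fun x => x) (by fun_prop) (by fun_prop)).inter
        (measurableSet_lt (f := fun x : ℝ => x) (g := fun _ => an R + hn R * Mn R) (by fun_prop)
          (by fun_prop))
    · refine Filter.Eventually.of_forall fun x => ?_
      have : 0 ≤ hn R * ((Kn R : ℝ) * Mn R) := mul_nonneg hh.le (mul_nonneg (Nat.cast_nonneg _) (Nat.cast_nonneg _))
      split_ifs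
      · rw [Real.norm_eq_abs, abs_of_nonneg this]
      · simpa using this
  unfold bt
  rw [intervalIntegral.integral_add (by simp) hi, h1]
  simp only [intervalIntegral.integral_const, sub_zero, one_smul]
  have h2 : max 0 (min 1 (an R + hn R * Mn R) - an R) ≤ hn R * Mn R :=
    max_le hhM (by linarith [min_le_right 1 (an R + hn R * Mn R)])
  have h3 := hM_le_hKM hR
  have h4 : 0 ≤ hn R * ((Kn R : ℝ) * Mn R) := hhM.trans h3
  have h5 : hn R * ((Kn R : ℝ) * Mn R) * max 0 (min 1 (an R + hn R * Mn R) - an R) ≤ E0 R := by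
    unfold E0
    rw [sq]
    exact mul_le_mul_of_nonneg_left (h2.trans h3) h4
  linarith

lemma meas_bt (R : ℕ) : Measurable (bt R) := by
  unfold bt
  refine measurable_const.add (Measurable.ite ?_ measurable_const measurable_const)
  exact (measurableSet_lt (f := fun _ : ℝ => an R) (g := fun x => x) (by fun_prop) (by fun_prop)).inter
        (measurableSet_lt (f := fun x : ℝ => x) (g := fun _ => an R + hn R * Mn R) (by fun_prop)
          (by fun_prop))

lemma bt_le (hR : 1 ≤ R) (x : ℝ) : |bt R x| ≤ E0 R + hn R * ((Kn R : ℝ) * Mn R) := by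
  have h0 := E0_nonneg R
  have h4 : 0 ≤ hn R * ((Kn R : ℝ) * Mn R) := mul_nonneg (hn_pos hR).le (mul_nonneg (Nat.cast_nonneg _) (Nat.cast_nonneg _))
  rw [abs_of_nonneg (h0.trans (bt_ge hR x))]
  unfold bt
  split_ifs <;> linarith

/-- the total variation distance of two species -/
theorem TV (hp : Sp R σ T S) (hp' : Sp R σ T' S') :
    I2 (fun x y => |W (tk R) (tk R) T S x y - W (tk R) (tk R) T' S' x y|) ≤ 4 * E0 R := by
  have hR := hp.hR
  have n1 : Nice (fun x _ => bt R x) :=
    ⟨(meas_bt R).comp measurable_fst, _, fun x _ y _ => bt_le hR x⟩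
  have n2 : Nice (fun _ y => bt R (1 - y)) :=
    ⟨(meas_bt R).comp (by fun_prop : Measurable fun p : ℝ × ℝ => 1 - p.2), _,
      fun x _ y _ => bt_le hR _⟩
  have h1 : I2 (fun x y => |W (tk R) (tk R) T S x y - W (tk R) (tk R) T' S' x y|)
      ≤ I2 (fun x y => bt R x + bt R (1 - y)) := by
    refine I2_mono (((niceW _ _ _ _).sub (niceW _ _ _ _)).abs) (n1.add n2) fun x hx y hy => ?_
    have a1 := Phi_diff hR hp.cT hp'.cT hp.mT hp'.mT (hp.sT.trans hp'.sT.symm) hx.1 hy.2
    have a2 := Phi_diff (x := 1 - y) (y := 1 - x) hR hp.cS hp'.cS hp.mS hp'.mS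
      (hp.sS.trans hp'.sS.symm) (by linarith [hy.2]) (by linarith [hx.1])
    have b1 : Phi (tk R) S (1 - y) (1 - x) ≤ 1 :=
      (Phi_le _ _ _ _).trans (pow_le_one₀ (le_max_left _ _)
        (max_le zero_le_one (by linarith [hx.1, hy.2])))
    have b2 : Phi (tk R) T' x y ≤ 1 :=
      (Phi_le _ _ _ _).trans (pow_le_one₀ (le_max_left _ _)
        (max_le zero_le_one (by linarith [hx.1, hy.2])))
    have e : W (tk R) (tk R) T S x y - W (tk R) (tk R) T' S' x y
        = (Phi (tk R) T x y - Phi (tk R) T' x y) * Phi (tk R) S (1 - y) (1 - x)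
          + Phi (tk R) T' x y * (Phi (tk R) S (1 - y) (1 - x) - Phi (tk R) S' (1 - y) (1 - x)) := by
      unfold W
      ring
    rw [e]
    refine (abs_add_le _ _).trans ?_
    rw [abs_mul, abs_mul, abs_of_nonneg (Phi_nonneg (tk R) S (1 - y) (1 - x)),
      abs_of_nonneg (Phi_nonneg (tk R) T' x y)]
    refine add_le_add ((mul_le_of_le_one_right (abs_nonneg _) b1).trans a1) ?_
    exact (mul_le_of_le_one_left (abs_nonneg _) b2).trans a2
  refine h1.trans ?_
  rw [I2_add n1 n2]
  have e1 : I2 (fun x _ => bt R x) = ∫ x in (0 : ℝ)..1, bt R x := by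
    unfold I2
    simp
  have e2 : I2 (fun _ y => bt R (1 - y)) = ∫ x in (0 : ℝ)..1, bt R x := by
    unfold I2
    rw [intervalIntegral.integral_const]
    simp [intervalIntegral.integral_comp_sub_left (fun x => bt R x) (1 : ℝ)]
  rw [e1, e2]
  have := bt_int hR
  linarith

end Pool.Agent.Helper57.T1
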