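import Pool.Agent.Helper57.T1.Target
import Pool.Agent.Helper57.T1.TV

/-! # T1, row R8: leaves of two species -/

set_option autoImplicit false

open MeasureTheory Set

namespace Pool.Agent.Helper57.T1

open Pool.Agent.T1K

variable {R σ : ℕ} {T S T' S' : Finset ℕ} {x y b t : ℝ} {z z2 : ℕ} {c d : ℕ → ℝ}

/-- the part of the square where both centres are near their ends -/
noncomputable def cen (f : ℝ → ℝ → ℝ) (u x y : ℝ) : ℝ := if x ≤ u ∧ 7 / 8 ≤ y then f x y else 0

lemma nice_cen {f : ℝ → ℝ → ℝ} (hf : Nice f) (u : ℝ) : Nice (cen f u) := by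
  obtain ⟨C, hC⟩ := hf.bdd
  have h0 : 0 ≤ C := (abs_nonneg _).trans (hC 0 ⟨le_rfl, zero_le_one⟩ 0 ⟨le_rfl, zero_le_one⟩)
  refine ⟨?_, C, fun x hx y hy => ?_⟩
  · unfold cen
    refine Measurable.ite ?_ hf.meas measurable_const
    exact (measurableSet_le (f := fun p : ℝ × ℝ => p.1) (g := fun _ => u) (by fun_prop) (by fun_prop)).inter
      (measurableSet_le (f := fun _ : ℝ × ℝ => (7 / 8 : ℝ)) (g := fun p => p.2) (by fun_prop) (by fun_prop))
  · unfold cen
    split_ifs
    · exact hC x hx y hy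
    · simpa using h0

/-- integral over `x ≤ u` of the power -/
lemma pow_lt (m : ℕ) (hb : 0 ≤ b) {u : ℝ} (h0 : 0 ≤ u) (h1 : u ≤ 1) :
    I2 (fun x y => if x ≤ u then (max 0 (y - x - b)) ^ (m + 1) else 0)
      = ((max 0 (1 - b)) ^ (m + 3) - (max 0 (1 - (u + b))) ^ (m + 3)) / ((m + 2) * (m + 3)) := by
  have hc : Continuous (fun x : ℝ => ∫ y in (0 : ℝ)..1, (max 0 (y - x - b)) ^ (m + 1)) :=
    intervalIntegral.continuous_parametric_intervalIntegral_of_continuous'
      (by fun_prop : Continuous (Function.uncurry fun x y : ℝ => (max 0 (y - x - b)) ^ (m + 1))) _ _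
  have e1 : I2 (fun x y => if x ≤ u then (max 0 (y - x - b)) ^ (m + 1) else 0)
      = ∫ x in (0 : ℝ)..u, ∫ y in (0 : ℝ)..1, (max 0 (y - x - b)) ^ (m + 1) := by
    have e2 : I2 (fun x y => if x ≤ u then (max 0 (y - x - b)) ^ (m + 1) else 0)
        = ∫ x in (0 : ℝ)..1, (Iic u).indicator
          (fun x => ∫ y in (0 : ℝ)..1, (max 0 (y - x - b)) ^ (m + 1)) x := by
      unfold I2
      refine intervalIntegral.integral_congr fun x _ => ?_
      by_cases hx : x ≤ u
      · simp [Set.indicator, hx]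
      · simp [Set.indicator, hx]
    rw [e2, intervalIntegral.integral_of_le zero_le_one, intervalIntegral.integral_of_le h0,
      setIntegral_indicator measurableSet_Iic]
    congr 2
    ext x
    simp only [mem_inter_iff, mem_Ioc, mem_Iic]
    constructor
    · rintro ⟨⟨h2, _⟩, h3⟩; exact ⟨h2, h3⟩
    · rintro ⟨h2, h3⟩; exact ⟨⟨h2, h3.trans h1⟩, h3⟩
  rw [e1]
  have h2 := intervalIntegral.integral_add_adjacent_intervals (a := 0) (b := u) (c := 1)
    (hc.intervalIntegrable (μ := volume) _ _) (hc.intervalIntegrable _ _)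
  have h3 := pow_gt m hb h0 h1
  have h4 := pow_gt m hb le_rfl zero_le_one
  rw [zero_add] at h4
  rw [sub_div]
  linarith

/-- growth of a power -/
lemma pow_gap {A u : ℝ} (hu : 0 ≤ u) (hA : u ≤ A) (n : ℕ) :
    (n : ℝ) * u * (A - u) ^ (n - 1) ≤ A ^ n - (A - u) ^ n := by
  induction n with
  | zero => simp
  | succ n ih =>
    have hB : 0 ≤ A - u := by linarith
    have h1 : (A - u) ^ n ≤ A ^ n := pow_le_pow_left₀ hB (by linarith) n
    rcases Nat.eq_zero_or_pos n with h0 | h0
    · subst h0; simp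
    have h2 : (A - u) ^ n = (A - u) ^ (n - 1) * (A - u) := by
      rw [← pow_succ, Nat.sub_add_cancel h0]
    rw [Nat.add_sub_cancel, pow_succ, pow_succ]
    push_cast
    have h3 := mul_le_mul_of_nonneg_right ih hB
    have h4 : (n : ℝ) * u * (A - u) ^ (n - 1) * (A - u) = n * u * (A - u) ^ n := by
      rw [h2]; ring
    have h5 : (A - u) ^ n * u ≤ A ^ n * u := mul_le_mul_of_nonneg_right h1 hu
    nlinarith

lemma tail_y (hp : Sp R σ T S) :
    I2 (fun x y => if y < 7 / 8 then W (tk R) (tk R) T S x y else 0) ≤ DD R / 1000 := by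
  have h1 := hp.symm.dX_tail
  refine le_trans (le_of_eq ?_) h1
  have hm : Measurable (Function.uncurry fun x y : ℝ =>
      if y < 7 / 8 then W (tk R) (tk R) T S x y else 0) := by
    refine Measurable.ite ?_ (cont_W _ _ _ _).measurable measurable_const
    exact measurableSet_lt (f := fun p : ℝ × ℝ => p.2) (g := fun _ => (7 / 8 : ℝ)) (by fun_prop) (by fun_prop)
  have hb : ∀ x ∈ Set.Ioc (0 : ℝ) 1, ∀ y ∈ Set.Ioc (0 : ℝ) 1,
      |(if y < 7 / 8 then W (tk R) (tk R) T S x y else 0)| ≤ 1 := by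
    intro x hx y hy
    split_ifs
    · rw [abs_of_nonneg (Helper57.T1.W_nonneg _ _ _ _ _ _)]
      exact Helper57.T1.W_le_one ⟨hx.1.le, hx.2⟩ ⟨hy.1.le, hy.2⟩
    · simp
  unfold I2
  rw [← refl01 hm hb]
  have e1 : ∀ x y : ℝ, (if 1 - x < 7 / 8 then W (tk R) (tk R) T S (1 - y) (1 - x) else 0)
      = if 1 / 8 < x then W (tk R) (tk R) S T x y else 0 := by
    intro x y
    rw [W_refl]
    by_cases h : 1 / 8 < x
    · rw [if_pos h, if_pos (by linarith)]
    · rw [if_neg h, if_neg (by linarith)]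
  simp only [e1]
  have e2 : ∀ x : ℝ, ∫ y in (0 : ℝ)..1, (if 1 / 8 < x then W (tk R) (tk R) S T x y else 0)
      = (Ioi (1 / 8 : ℝ)).indicator (dX (tk R) (tk R) S T) x := by
    intro x
    by_cases h : 1 / 8 < x
    · simp only [if_pos h]
      rw [Set.indicator_of_mem (by exact h)]
      rfl
    · simp only [if_neg h]
      rw [Set.indicator_of_notMem (by exact h)]
      simp
  simp only [e2]
  rw [intervalIntegral.integral_of_le zero_le_one, intervalIntegral.integral_of_le (by norm_num),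
    setIntegral_indicator measurableSet_Ioi]
  congr 2
  ext x
  simp only [mem_inter_iff, mem_Ioc, mem_Ioi]
  constructor
  · rintro ⟨⟨_, h2⟩, h3⟩; exact ⟨h3, h2⟩
  · rintro ⟨h2, h3⟩; exact ⟨⟨by linarith, h3⟩, h2⟩

/-- both centres are near their ends with positive probability, `x ≤ a / 2` -/
lemma cen_lower (hp : Sp R σ T S) : DD R / 200 ≤ I2 (cen (W (tk R) (tk R) T S) (an R / 2)) := by
  have hR := hp.hR
  have ha := an_pos hR
  have ha2 := an_le hR
  have h1 := tail_y hp
  have hu0 : 0 ≤ an R / 2 := by linarith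
  have h2 := pow_lt (2 * Kn R - 1) (b := 2 * an R) (by linarith) hu0 (by linarith : an R / 2 ≤ 1)
  have n0 := niceW (tk R) (tk R) T S
  have n1 : Nice (fun x y => if x ≤ an R / 2 then (max 0 (y - x - 2 * an R)) ^ (2 * Kn R - 1 + 1) else 0) := by
    refine ⟨?_, 1, fun x hx y hy => ?_⟩
    · refine Measurable.ite ?_ (by fun_prop) measurable_const
      exact measurableSet_le (f := fun p : ℝ × ℝ => p.1) (g := fun _ => an R / 2) (by fun_prop) (by fun_prop)
    · split_ifs
      · rw [abs_of_nonneg (by positivity)]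
        exact pow_le_one₀ (le_max_left _ _) (max_le zero_le_one (by linarith [hx.1, hy.2]))
      · simp
  have n2 : Nice (fun x y => if y < 7 / 8 then W (tk R) (tk R) T S x y else 0) := by
    refine ⟨?_, 1, fun x hx y hy => ?_⟩
    · refine Measurable.ite ?_ (cont_W _ _ _ _).measurable measurable_const
      exact measurableSet_lt (f := fun p : ℝ × ℝ => p.2) (g := fun _ => (7 / 8 : ℝ)) (by fun_prop)
        (by fun_prop)
    · split_ifs
      · rw [abs_of_nonneg (Helper57.T1.W_nonneg _ _ _ _ _ _)]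
        exact Helper57.T1.W_le_one hx hy
      · simp
  have h3 : I2 (fun x y => (if x ≤ an R / 2 then (max 0 (y - x - 2 * an R)) ^ (2 * Kn R - 1 + 1) else 0)
      - (if y < 7 / 8 then W (tk R) (tk R) T S x y else 0)) ≤ I2 (cen (W (tk R) (tk R) T S) (an R / 2)) := by
    refine I2_mono (n1.sub n2) (nice_cen n0 _) fun x hx y hy => ?_
    have hW := Helper57.T1.W_nonneg (tk R) (tk R) T S x y
    unfold cen
    by_cases hx2 : x ≤ an R / 2
    · have h4 := W_ge (c := tk R) (d := tk R) (T := T) (S := S) (b := 2 * an R) hx.1 hy.2 (by linarith)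
        (fun z hz => tk_le2 hR (hp.mT z hz)) (fun z hz => tk_le2 hR (hp.mS z hz))
      rw [hp.card] at h4
      by_cases hy2 : 7 / 8 ≤ y
      · rw [if_pos hx2, if_neg (not_lt.2 hy2), if_pos ⟨hx2, hy2⟩]
        linarith
      · have hn : ¬ (x ≤ an R / 2 ∧ 7 / 8 ≤ y) := fun h => hy2 h.2
        rw [if_pos hx2, if_pos (not_le.1 hy2), if_neg hn]
        linarith
    · have hn : ¬ (x ≤ an R / 2 ∧ 7 / 8 ≤ y) := fun h => hx2 h.1
      rw [if_neg hx2, if_neg hn]
      split_ifs <;> linarith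
  rw [I2_sub n1 n2, h2, cast1 R] at h3
  have hN : ((2 * Kn R - 1 + 3 : ℕ) : ℝ) = 2 * Kn R + 2 := by
    have := cast1 R
    push_cast at this ⊢
    linarith
  have h5 := pow_gap (A := 1 - 2 * an R) (u := an R / 2) hu0 (by linarith) (2 * Kn R - 1 + 3)
  rw [hN] at h5
  have h6 := bern R (v := 5 / 2 * an R) (by linarith)
  have h7 : (1 - 2 * an R - an R / 2) ^ (2 * Kn R - 1 + 3) ≤ (1 - 2 * an R - an R / 2) ^ (2 * Kn R - 1 + 3 - 1) :=
    pow_le_pow_of_le_one (by linarith) (by linarith) (by omega)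
  have e8 : 1 - 5 / 2 * an R = 1 - 2 * an R - an R / 2 := by ring
  rw [e8] at h6
  obtain ⟨h9, h10⟩ := an_mul hR
  have h11 : (9 / 10 : ℝ) ≤ (1 - 2 * an R - an R / 2) ^ (2 * Kn R - 1 + 3 - 1) := by
    refine le_trans ?_ (h6.trans h7)
    linarith
  have h12 : (1 / 100 : ℝ) * (9 / 10) ≤ (2 * (Kn R : ℝ) + 2) * (an R / 2)
      * (1 - 2 * an R - an R / 2) ^ (2 * Kn R - 1 + 3 - 1) :=
    mul_le_mul (by linarith) h11 (by norm_num) (by linarith)
  have e13 : max 0 (1 - 2 * an R) = 1 - 2 * an R := max_eq_right (by linarith)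
  have e14 : max 0 (1 - (an R / 2 + 2 * an R)) = 1 - 2 * an R - an R / 2 := by
    rw [max_eq_right (by linarith)]
    ring
  rw [e13, e14] at h3
  have e15 : ((1 - 2 * an R) ^ (2 * Kn R - 1 + 3) - (1 - 2 * an R - an R / 2) ^ (2 * Kn R - 1 + 3)) /
      ((2 * (Kn R : ℝ) - 1 + 2) * (2 * (Kn R : ℝ) - 1 + 3))
      = ((1 - 2 * an R) ^ (2 * Kn R - 1 + 3) - (1 - 2 * an R - an R / 2) ^ (2 * Kn R - 1 + 3)) * DD R := by
    unfold DD
    rw [mul_one_div]
    congr 2 <;> ring
  rw [e15] at h3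
  have hD := DD_pos R
  have h16 : (9 / 1000 : ℝ) ≤ (1 - 2 * an R) ^ (2 * Kn R - 1 + 3)
      - (1 - 2 * an R - an R / 2) ^ (2 * Kn R - 1 + 3) := by linarith
  have h17 := mul_le_mul_of_nonneg_right h16 hD.le
  linarith

/-! ## The kernel of a leaf -/

/-- raising the tick lowers the distribution function -/
lemma ph_anti {e e' : ℝ} (h : e ≤ e') (t x y : ℝ) : ph e' t x y ≤ ph e t x y := by
  unfold ph
  have h1 : max x e ≤ max x e' := max_le_max le_rfl h
  generalize max x e = A at *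
  generalize max x e' = B at *
  have h3 := min_le_right t y
  generalize min t y = s at *
  rcases le_or_gt y B with h2 | h2
  · rw [max_eq_left (by linarith : y - B ≤ 0), div_zero]
    exact div_nonneg (le_max_left _ _) (le_max_left _ _)
  · rw [max_eq_right (by linarith : 0 ≤ y - B), max_eq_right (by linarith : 0 ≤ y - A)]
    rw [div_le_div_iff₀ (by linarith) (by linarith)]
    rcases le_or_gt s B with h4 | h4
    · rw [max_eq_left (by linarith : s - B ≤ 0), zero_mul]
      exact mul_nonneg (le_max_left _ _) (by linarith)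
    · rw [max_eq_right (by linarith : 0 ≤ s - B), max_eq_right (by linarith : 0 ≤ s - A)]
      nlinarith [mul_nonneg (sub_nonneg.2 h1) (sub_nonneg.2 h3)]

/-- quantitative form when both centres are near their ends -/
lemma ph_gap {e e' : ℝ} (h : e ≤ e') (hx : x ≤ e) (he0 : 0 ≤ e) (he1 : e' ≤ 1 / 8) (hy : 7 / 8 ≤ y)
    (hy1 : y ≤ 1) (ht : t ∈ Icc (1 / 4 : ℝ) (3 / 4)) : ph e' t x y + (e' - e) / 8 ≤ ph e t x y := by
  unfold ph
  obtain ⟨ht1, ht2⟩ := ht
  rw [max_eq_right (hx.trans h), max_eq_right hx, min_eq_left (by linarith),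
    max_eq_right (by linarith), max_eq_right (by linarith), max_eq_right (by linarith),
    max_eq_right (by linarith)]
  have h1 : 0 < y - e' := by linarith
  have h2 : 0 < y - e := by linarith
  have e1 : (t - e) / (y - e) - (t - e') / (y - e') = (e' - e) * (y - t) / ((y - e) * (y - e')) := by
    field_simp
    ring
  have h3 : (e' - e) / 8 ≤ (e' - e) * (y - t) / ((y - e) * (y - e')) := by
    rw [div_le_div_iff₀ (by norm_num) (by positivity)]
    have h4 : (y - e) * (y - e') ≤ 1 := by nlinarith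
    have h5 : (1 : ℝ) ≤ (y - t) * 8 := by linarith
    nlinarith [mul_nonneg (sub_nonneg.2 h) (by linarith : (0 : ℝ) ≤ (y - t) * 8 - (y - e) * (y - e'))]
  linarith

end Pool.Agent.Helper57.T1
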