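import Pool.Agent.Helper57.T1.Gap

/-! # T1, row R8: pairwise probabilities for leaves of two species -/

set_option autoImplicit false

open MeasureTheory Set

namespace Pool.Agent.Helper57.T1

open Pool.Agent.T1K

variable {R σ : ℕ} {T S T' S' : Finset ℕ} {x y b t : ℝ} {z z2 : ℕ} {c d : ℕ → ℝ}

/-! ## Numerical facts -/

lemma num_q (hR : 1 ≤ R) : ∃ q : ℝ, 0 < q ∧ q ≤ 1 / 1000000000 ∧ hn R = q ^ 16 ∧ E0 R = q ^ 30 ∧
    q / 5 ≤ DD R ∧ DD R ≤ 1 ∧ q ^ 16 ≤ q := by
  have h1 := Kn_ge hR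
  have h2 := Mn_ge R
  have h3 := KM_ge hR
  have hP : 0 < (Kn R : ℝ) * Mn R := by linarith
  have hq0 : 0 < 1 / ((Kn R : ℝ) * Mn R) := one_div_pos.2 hP
  refine ⟨1 / ((Kn R : ℝ) * Mn R), hq0, ?_, ?_, ?_, ?_, ?_, ?_⟩
  · exact one_div_le_one_div_of_le (by norm_num) (by linarith)
  · unfold hn
    rw [one_div_pow]
  · unfold E0
    rw [hn_mul hR, one_div_pow, one_div_pow, ← pow_mul]
  · unfold DD
    rw [div_div]
    refine one_div_le_one_div_of_le (mul_pos (by linarith) (by linarith)) ?_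
    nlinarith
  · unfold DD
    rw [div_le_one (mul_pos (by linarith) (by linarith))]
    nlinarith
  · have hq : (1 : ℝ) / ((Kn R : ℝ) * Mn R) ≤ 1 := by
      rw [div_le_one hP]
      linarith
    have := pow_le_pow_of_le_one hq0.le hq (by norm_num : 1 ≤ 16)
    rwa [pow_one] at this

lemma num_main (hR : 1 ≤ R) : hn R ^ 2 ≤ DD R * (hn R / 2000 * DD R - 16 * E0 R) := by
  obtain ⟨q, h0, h1, h2, h3, h4, _, _⟩ := num_q hR
  rw [h2, h3]
  have hq : q ≤ 1 := by linarith
  have a1 : q ^ 17 / 10000 ≤ q ^ 16 / 2000 * DD R := by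
    have := mul_le_mul_of_nonneg_left h4 (by positivity : (0 : ℝ) ≤ q ^ 16 / 2000)
    refine le_trans (le_of_eq ?_) this
    ring
  have a2 : 16 * q ^ 30 ≤ q ^ 17 / 20000 := by
    have e : q ^ 13 ≤ q := by
      have := pow_le_pow_of_le_one h0.le hq (by norm_num : 1 ≤ 13)
      rwa [pow_one] at this
    have e2 : q ^ 30 = q ^ 13 * q ^ 17 := by ring
    have e3 : 0 < q ^ 17 := by positivity
    rw [e2]
    nlinarith
  have a3 : q ^ 17 / 20000 ≤ q ^ 16 / 2000 * DD R - 16 * q ^ 30 := by linarith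
  have a4 : q / 5 * (q ^ 17 / 20000) ≤ DD R * (q ^ 16 / 2000 * DD R - 16 * q ^ 30) :=
    mul_le_mul h4 a3 (by positivity) (DD_pos R).le
  refine le_trans ?_ a4
  have e : q ^ 14 ≤ q := by
    have := pow_le_pow_of_le_one h0.le hq (by norm_num : 1 ≤ 14)
    rwa [pow_one] at this
  have e2 : (q ^ 16) ^ 2 = q ^ 14 * q ^ 18 := by ring
  have e3 : q / 5 * (q ^ 17 / 20000) = q ^ 18 / 100000 := by ring
  have e4 : 0 < q ^ 18 := by positivity
  rw [e2, e3]
  nlinarith

lemma num_hD (hR : 1 ≤ R) : hn R ≤ DD R / 200 := by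
  obtain ⟨q, h0, h1, h2, _, h4, _, _⟩ := num_q hR
  rw [h2]
  have hq : q ≤ 1 := by linarith
  have e : q ^ 15 ≤ q := by
    have := pow_le_pow_of_le_one h0.le hq (by norm_num : 1 ≤ 15)
    rwa [pow_one] at this
  have e2 : q ^ 16 = q ^ 15 * q := by ring
  rw [e2]
  nlinarith

lemma num_ah (hR : 1 ≤ R) : 2 * hn R ≤ an R := by
  have h1 := hM_le hR
  have h2 := Kn_ge hR
  have h3 := Mn_ge R
  have h4 := hn_pos hR
  nlinarith [an_pos hR]

/-! ## The comparison -/

lemma I2_W_ph_le (e t : ℝ) : I2 (fun x y => W c d T S x y * ph e t x y) ≤ Vol c d T S := by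
  rw [Vol_eq]
  refine I2_mono ((niceW c d T S).mul (nice_ph e t)) (niceW c d T S) fun x _ y _ => ?_
  exact mul_le_of_le_one_right (Helper57.T1.W_nonneg _ _ _ _ _ _) (ph_le_one _ _ _ _)

lemma I2_W_ph_nonneg (e t : ℝ) : 0 ≤ I2 (fun x y => W c d T S x y * ph e t x y) :=
  I2_nonneg fun _ _ _ _ => mul_nonneg (Helper57.T1.W_nonneg _ _ _ _ _ _) (ph_nonneg _ _ _ _)

lemma Vol_diff (hp : Sp R σ T S) (hp' : Sp R σ T' S') :
    |Vol (tk R) (tk R) T S - Vol (tk R) (tk R) T' S'| ≤ 4 * E0 R := by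
  rw [Vol_eq, Vol_eq, ← I2_sub (niceW _ _ _ _) (niceW _ _ _ _)]
  exact (I2_abs_le ((niceW _ _ _ _).sub (niceW _ _ _ _))).trans (TV hp hp')

lemma ph_diff (hp : Sp R σ T S) (hp' : Sp R σ T' S') (e t : ℝ) :
    |I2 (fun x y => W (tk R) (tk R) T S x y * ph e t x y)
      - I2 (fun x y => W (tk R) (tk R) T' S' x y * ph e t x y)| ≤ 4 * E0 R := by
  have n1 := (niceW (tk R) (tk R) T S).mul (nice_ph e t)
  have n2 := (niceW (tk R) (tk R) T' S').mul (nice_ph e t)
  rw [← I2_sub n1 n2]
  refine (I2_abs_le (n1.sub n2)).trans (le_trans (I2_mono (n1.sub n2).abs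
    ((niceW (tk R) (tk R) T S).sub (niceW (tk R) (tk R) T' S')).abs fun x _ y _ => ?_) (TV hp hp'))
  rw [← sub_mul, abs_mul, abs_of_nonneg (ph_nonneg e t x y)]
  exact mul_le_of_le_one_right (abs_nonneg _) (ph_le_one _ _ _ _)

/-- the core comparison -/
theorem gap_core (hp : Sp R σ T S) (hp' : Sp R σ T' S') {f : ℝ → ℝ}
    (hf : IntervalIntegrable f volume 0 1) (hV : ∫ t in (0 : ℝ)..1, f t = Vol (tk R) (tk R) T S)
    (hz : z ∈ T')
    (hF1 : ∀ t ∈ Icc (0 : ℝ) 1, I2 (fun x y => W (tk R) (tk R) T S x y * ph (tk R z) t x y)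
      ≤ ∫ s in (0 : ℝ)..t, f s)
    (hF2 : ∀ t ∈ Icc (1 / 4 : ℝ) (3 / 4), I2 (fun x y => W (tk R) (tk R) T S x y * ph (tk R z) t x y)
      + hn R / 1600 * DD R ≤ ∫ s in (0 : ℝ)..t, f s) :
    hn R ^ 2 ≤ Nf f (dL (tk R) (tk R) T' S' z) := by
  have hR := hp.hR
  have hE := E0_nonneg R
  have hD := DD_pos R
  have hh := hn_pos hR
  have hVp := hp.Vol_pos
  have hVp' := hp'.Vol_pos
  have hg : IntervalIntegrable (dL (tk R) (tk R) T' S' z) volume 0 1 :=
    int_dL_sub le_rfl zero_le_one le_rfl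
  have hgI : ∫ t in (0 : ℝ)..1, dL (tk R) (tk R) T' S' z t = Vol (tk R) (tk R) T' S' := int_dL_eq hz
  have key : ∀ t ∈ Icc (0 : ℝ) 1, Vol (tk R) (tk R) T S / Vol (tk R) (tk R) T' S'
      * (∫ s in (0 : ℝ)..t, dL (tk R) (tk R) T' S' z s) - 8 * E0 R
      ≤ I2 (fun x y => W (tk R) (tk R) T S x y * ph (tk R z) t x y) := by
    intro t ht
    have k1 := cdf_dL (c := tk R) (d := tk R) (T := T') (S := S') hz ht.1 ht.2
    rw [k1]
    have k2 := ph_diff hp hp' (tk R z) t
    have k3 := Vol_diff hp hp'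
    have k4 := I2_W_ph_le (c := tk R) (d := tk R) (T := T') (S := S') (tk R z) t
    have k5 := I2_W_ph_nonneg (c := tk R) (d := tk R) (T := T') (S := S') (tk R z) t
    generalize I2 (fun x y => W (tk R) (tk R) T' S' x y * ph (tk R z) t x y) = G at *
    generalize I2 (fun x y => W (tk R) (tk R) T S x y * ph (tk R z) t x y) = F at *
    generalize Vol (tk R) (tk R) T S = V at *
    generalize Vol (tk R) (tk R) T' S' = V' at *
    have e1 : V / V' * G = G + (V - V') * (G / V') := by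
      field_simp
      ring
    have e2 : (V - V') * (G / V') ≤ 4 * E0 R := by
      have : |(V - V') * (G / V')| ≤ 4 * E0 R * 1 := by
        rw [abs_mul, abs_of_nonneg (div_nonneg k5 hVp'.le)]
        exact mul_le_mul k3 (div_le_one_of_le₀ k4 hVp'.le) (div_nonneg k5 hVp'.le) (by linarith)
      rw [mul_one] at this
      exact (le_abs_self _).trans this
    have e3 := (abs_le.1 k2).1
    rw [e1]
    linarith
  have h := Nf_comp (f := f) (g := dL (tk R) (tk R) T' S' z) hf hg (fun t _ => Helper57.T1.dL_nonneg t)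
    (Nf_self hg) (lam := Vol (tk R) (tk R) T S / Vol (tk R) (tk R) T' S') (eps := 8 * E0 R)
    (del := hn R / 1600 * DD R - 8 * E0 R)
    (by rw [hgI, hV, div_mul_cancel₀ _ hVp'.ne'])
    (by have : 0 ≤ hn R / 1600 * DD R := by positivity
        linarith)
    (fun t ht => (key t ht).trans (hF1 t ht))
    (fun t ht => by
      have k1 := key t ⟨by linarith [ht.1], by linarith [ht.2]⟩
      have k2 := hF2 t ht
      linarith)
  rw [hgI] at h
  have q1 : (0 : ℝ) ≤ 1 / 4 := by norm_num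
  have q2 : (1 / 4 : ℝ) ≤ 3 / 4 := by norm_num
  have q3 : (3 / 4 : ℝ) ≤ 1 := by norm_num
  have m1 := hp'.dL_int hz le_rfl q1 (q2.trans q3)
  have m2 := hp'.dL_int hz (q1.trans q2) q3 le_rfl
  have s1 := intervalIntegral.integral_add_adjacent_intervals (sub_int hg le_rfl q1 (q2.trans q3))
    (sub_int hg q1 q2 q3)
  have s2 := intervalIntegral.integral_add_adjacent_intervals (sub_int hg le_rfl (q1.trans q2) q3)
    (sub_int hg (q1.trans q2) q3 le_rfl)
  have m3 := hp'.Vol_ge
  have m4 := hp'.Vol_le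
  have m5 : 2 / 5 * DD R ≤ ∫ t in (1 / 4 : ℝ)..(3 / 4), dL (tk R) (tk R) T' S' z t := by
    rw [hgI] at s2
    linarith
  refine le_trans ?_ h
  have m6 : 2 * (hn R / 1600 * DD R - 8 * E0 R + 8 * E0 R) * (2 / 5 * DD R)
      ≤ 2 * (hn R / 1600 * DD R - 8 * E0 R + 8 * E0 R)
        * ∫ t in (1 / 4 : ℝ)..(3 / 4), dL (tk R) (tk R) T' S' z t := by
    refine mul_le_mul_of_nonneg_left m5 ?_
    have : 0 ≤ hn R / 1600 * DD R := by positivity
    linarith
  have m7 : 2 * (8 * E0 R) * Vol (tk R) (tk R) T' S' ≤ 2 * (8 * E0 R) * DD R :=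
    mul_le_mul_of_nonneg_left m4 (by linarith)
  have m8 := num_main hR
  have e : 2 * (hn R / 1600 * DD R - 8 * E0 R + 8 * E0 R) * (2 / 5 * DD R) - 2 * (8 * E0 R) * DD R
      = DD R * (hn R / 2000 * DD R - 16 * E0 R) := by ring
  linarith

/-! ## Two lower leaves -/

lemma tk_gap (hR : 1 ≤ R) (h : z < z2) : tk R z + hn R ≤ tk R z2 := by
  unfold tk
  have h1 := hn_pos hR
  have h2 : (z : ℝ) + 1 ≤ z2 := by exact_mod_cast h
  nlinarith

lemma tk_le_eighth (hR : 1 ≤ R) (h : z ≤ Mn R) : tk R z ≤ 1 / 8 := by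
  have := tk_le hR h
  have := an_le hR
  linarith

theorem gap_LL_sp (hp : Sp R σ T S) (hp' : Sp R σ T' S') (hz : z ∈ T) (hz2 : z2 ∈ T') (h : z < z2) :
    hn R ^ 2 ≤ Nf (dL (tk R) (tk R) T S z) (dL (tk R) (tk R) T' S' z2) := by
  have hR := hp.hR
  have hgap := tk_gap hR h
  have hh := hn_pos hR
  have ha := an_pos hR
  refine gap_core hp hp' (int_dL_sub le_rfl zero_le_one le_rfl) (int_dL_eq hz) hz2 ?_ ?_
  · intro t ht
    rw [cdf_dL hz ht.1 ht.2]
    refine I2_mono ((niceW _ _ _ _).mul (nice_ph _ _)) ((niceW _ _ _ _).mul (nice_ph _ _))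
      fun x _ y _ => ?_
    exact mul_le_mul_of_nonneg_left (ph_anti (by linarith) _ _ _) (Helper57.T1.W_nonneg _ _ _ _ _ _)
  · intro t ht
    rw [cdf_dL hz (by linarith [ht.1]) (by linarith [ht.2])]
    have c1 := cen_lower hp
    have n1 := (niceW (tk R) (tk R) T S).mul (nice_ph (tk R z2) t)
    have n2 := (nice_cen (niceW (tk R) (tk R) T S) (an R / 2)).cmul (hn R / 8)
    have c2 : I2 (fun x y => W (tk R) (tk R) T S x y * ph (tk R z2) t x y
        + hn R / 8 * cen (W (tk R) (tk R) T S) (an R / 2) x y)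
        ≤ I2 (fun x y => W (tk R) (tk R) T S x y * ph (tk R z) t x y) := by
      refine I2_mono (n1.add n2) ((niceW _ _ _ _).mul (nice_ph _ _)) fun x hx y hy => ?_
      have hW := Helper57.T1.W_nonneg (tk R) (tk R) T S x y
      unfold cen
      split_ifs with hc
      · have g1 := ph_gap (e := tk R z) (e' := tk R z2) (x := x) (y := y) (t := t) (by linarith)
          (by linarith [hc.1, tk_nonneg hR z]) (by linarith [tk_nonneg hR z])
          (tk_le_eighth hR (hp'.mT z2 hz2)) hc.2 hy.2 ht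
        have g2 : ph (tk R z2) t x y + hn R / 8 ≤ ph (tk R z) t x y := by linarith
        have := mul_le_mul_of_nonneg_left g2 hW
        linarith
      · rw [mul_zero, add_zero]
        exact mul_le_mul_of_nonneg_left (ph_anti (by linarith) _ _ _) hW
    rw [I2_add n1 n2, I2_cmul] at c2
    have c3 : hn R / 8 * (DD R / 200) ≤ hn R / 8 * I2 (cen (W (tk R) (tk R) T S) (an R / 2)) :=
      mul_le_mul_of_nonneg_left c1 (by linarith)
    linarith

/-- a lower leaf is above the first tick and below the next tick with positive probability -/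
theorem tick_L_sp (hp : Sp R σ T S) (hz : z ∈ T) (hz2 : z2 ≤ Mn R) (h : z < z2) :
    hn R ^ 2 ≤ ∫ t in (0 : ℝ)..(tk R z2), dL (tk R) (tk R) T S z t := by
  have hR := hp.hR
  have hgap := tk_gap hR h
  have hh := hn_pos hR
  have ha := an_pos hR
  have h8 := tk_le_eighth hR hz2
  have t0 := tk_nonneg hR z2
  have t1 := tk_nonneg hR z
  rw [cdf_dL hz (by linarith) (by linarith)]
  have c1 := cen_lower hp
  have c2 : I2 (fun x y => hn R * cen (W (tk R) (tk R) T S) (an R / 2) x y)
      ≤ I2 (fun x y => W (tk R) (tk R) T S x y * ph (tk R z) (tk R z2) x y) := by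
    refine I2_mono ((nice_cen (niceW _ _ _ _) _).cmul _) ((niceW _ _ _ _).mul (nice_ph _ _))
      fun x hx y hy => ?_
    have hW := Helper57.T1.W_nonneg (tk R) (tk R) T S x y
    unfold cen
    split_ifs with hc
    · have g : hn R ≤ ph (tk R z) (tk R z2) x y := by
        unfold ph
        rw [max_eq_right (by linarith [hc.1] : x ≤ tk R z), min_eq_left (by linarith [hc.2]),
          max_eq_right (by linarith), max_eq_right (by linarith [hc.2]),
          le_div_iff₀ (by linarith [hc.2])]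
        have : hn R * (y - tk R z) ≤ hn R * 1 := mul_le_mul_of_nonneg_left (by linarith [hy.2]) hh.le
        linarith
      have := mul_le_mul_of_nonneg_left g hW
      linarith
    · rw [mul_zero]
      exact mul_nonneg hW (ph_nonneg _ _ _ _)
  rw [I2_cmul] at c2
  have c3 : hn R * (DD R / 200) ≤ hn R * I2 (cen (W (tk R) (tk R) T S) (an R / 2)) :=
    mul_le_mul_of_nonneg_left c1 hh.le
  have c4 := mul_le_mul_of_nonneg_left (num_hD hR) hh.le
  rw [sq]
  linarith

/-! ## An upper leaf -/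

/-- distribution function of an upper leaf -/
lemma cdf_dR (hz : z ∈ S) (h0 : 0 ≤ t) (h1 : t ≤ 1) :
    ∫ s in (0 : ℝ)..t, dR c d T S z s
      = I2 (fun x y => W c d T S x y * (1 - ph (d z) (1 - t) (1 - y) (1 - x))) := by
  have e1 : ∫ s in (0 : ℝ)..t, dR c d T S z s = ∫ s in (1 - t)..1, dL d c S T z s := by
    have e2 : ∫ s in (0 : ℝ)..t, dR c d T S z s = ∫ s in (0 : ℝ)..t, dL d c S T z (1 - s) :=
      intervalIntegral.integral_congr fun s _ => dR_eq c d T S z s
    rw [e2, intervalIntegral.integral_comp_sub_left (fun s => dL d c S T z s), sub_zero]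
  have e3 := intervalIntegral.integral_add_adjacent_intervals
    (int_dL_sub (c := d) (d := c) (T := S) (S := T) (z := z) le_rfl (by linarith : (0 : ℝ) ≤ 1 - t)
      (by linarith)) (int_dL_sub (by linarith) (by linarith) le_rfl)
  have e4 : I2 (fun x y => W c d T S x y * (1 - ph (d z) (1 - t) (1 - y) (1 - x)))
      = I2 (fun x y => W d c S T x y * (1 - ph (d z) (1 - t) x y)) := by
    have nn : Nice (fun x y => W d c S T x y * (1 - ph (d z) (1 - t) x y)) :=
      (niceW d c S T).mul ((Nice.const 1).sub (nice_ph _ _))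
    obtain ⟨C, hC⟩ := nn.bdd
    have := refl01 (f := fun x y => W d c S T x y * (1 - ph (d z) (1 - t) x y)) nn.meas (C := C)
      (fun x hx y hy => hC x ⟨hx.1.le, hx.2⟩ y ⟨hy.1.le, hy.2⟩)
    unfold I2
    rw [← this]
    refine intervalIntegral.integral_congr fun x _ => intervalIntegral.integral_congr fun y _ => ?_
    change W c d T S x y * _ = W d c S T (1 - y) (1 - x) * _
    rw [W_refl]
  have e5 : (fun x y => W d c S T x y * (1 - ph (d z) (1 - t) x y))
      = fun x y => W d c S T x y - W d c S T x y * ph (d z) (1 - t) x y := by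
    funext x y
    ring
  rw [e1, e4, e5, I2_sub (niceW d c S T) ((niceW d c S T).mul (nice_ph _ _)),
    ← cdf_dL hz (by linarith) (by linarith), ← Vol_eq, ← int_dL_eq hz]
  linarith

/-- an upper leaf is stochastically below a lower leaf -/
lemma ph_refl (e e' t x y : ℝ) : ph e' t x y ≤ 1 - ph e (1 - t) (1 - y) (1 - x) := by
  unfold ph
  have h1 : max (1 - y) e = 1 - min y (1 - e) := by
    rcases le_total y (1 - e) with h | h
    · rw [min_eq_left h, max_eq_left (by linarith)]
    · rw [min_eq_right h, max_eq_right (by linarith)]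
      ring
  have h2 : min (1 - t) (1 - x) = 1 - max t x := by
    rcases le_total t x with h | h
    · rw [max_eq_right h, min_eq_right (by linarith)]
    · rw [max_eq_left h, min_eq_left (by linarith)]
  rw [h1, h2]
  have h3 := min_le_left y (1 - e)
  generalize min y (1 - e) = β at *
  have h4 := le_max_left x e'
  generalize max x e' = A at *
  have e1 : 1 - max t x - (1 - β) = β - max t x := by ring
  have e2 : 1 - x - (1 - β) = β - x := by ring
  rw [e1, e2]
  rcases le_or_gt β x with hb | hb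
  · rw [max_eq_left (by linarith : β - x ≤ 0), div_zero, sub_zero]
    exact div_le_one_of_le₀ (max_le_max le_rfl (by linarith [min_le_right t y])) (le_max_left _ _)
  rw [max_eq_right (by linarith : 0 ≤ β - x)]
  rcases le_or_gt y A with hy | hy
  · rw [max_eq_left (by linarith : y - A ≤ 0), div_zero, sub_nonneg]
    refine div_le_one_of_le₀ (max_le (by linarith) ?_) (by linarith)
    linarith [le_max_right t x]
  rw [max_eq_right (by linarith : 0 ≤ y - A)]
  have hb' : 0 < β - x := by linarith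
  have hy' : 0 < y - A := by linarith
  have e3 : 1 - max 0 (β - max t x) / (β - x) = (β - x - max 0 (β - max t x)) / (β - x) := by
    field_simp
  rw [e3, div_le_div_iff₀ hy' hb']
  rcases le_or_gt t A with h5 | h5
  · rw [max_eq_left (by linarith [min_le_left t y]), zero_mul]
    refine mul_nonneg ?_ hy'.le
    rw [sub_nonneg]
    exact max_le hb'.le (by linarith [le_max_right t x])
  · rw [max_eq_left (by linarith : x ≤ t)]
    rcases le_or_gt β t with h6 | h6
    · rw [max_eq_left (by linarith : β - t ≤ 0)]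
      have h7 : max 0 (min t y - A) ≤ y - A := max_le hy'.le (by linarith [min_le_right t y])
      have := mul_le_mul_of_nonneg_right h7 hb'.le
      linarith
    · rw [max_eq_right (by linarith : 0 ≤ β - t), min_eq_left (by linarith), max_eq_right (by linarith)]
      have h8 : (t - A) * (β - x) ≤ (t - A) * (y - x) :=
        mul_le_mul_of_nonneg_left (by linarith) (by linarith)
      have h9 : 0 ≤ (A - x) * (y - t) := mul_nonneg (by linarith) (by linarith)
      nlinarith

/-- quantitative form -/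
lemma ph_refl_gap {e e' u : ℝ} (hu0 : 0 ≤ u) (hx : x ≤ u) (hue : u ≤ e') (he1 : e' ≤ 1 / 8)
    (hy : 7 / 8 ≤ y) (hy1 : y ≤ 1) (ht : t ∈ Icc (1 / 4 : ℝ) (3 / 4)) :
    ph e' t x y + (e' - u) / 8 ≤ 1 - ph e (1 - t) (1 - y) (1 - x) := by
  have h := ph_refl e u t x y
  have h2 := ph_gap (e := u) (e' := e') (x := x) (y := y) (t := t) hue hx (by linarith) he1 hy hy1 ht
  linarith

lemma nice_R (c d : ℕ → ℝ) (T S : Finset ℕ) (e t : ℝ) :
    Nice (fun x y => W c d T S x y * (1 - ph e (1 - t) (1 - y) (1 - x))) := by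
  refine ⟨?_, 1, ?_⟩
  · refine (niceW _ _ _ _).meas.mul (measurable_const.sub ?_)
    exact (meas_ph _ _).comp (by fun_prop : Measurable fun p : ℝ × ℝ => (1 - p.2, 1 - p.1))
  · intro x hx y hy
    have g1 := ph_nonneg e (1 - t) (1 - y) (1 - x)
    have g2 := ph_le_one e (1 - t) (1 - y) (1 - x)
    have g3 := Helper57.T1.W_nonneg c d T S x y
    have g4 := Helper57.T1.W_le_one (c := c) (d := d) (T := T) (S := S) hx hy
    rw [abs_of_nonneg (mul_nonneg g3 (by linarith))]
    exact mul_le_one₀ g4 (by linarith) (by linarith)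

theorem gap_RL_sp (hp : Sp R σ T S) (hp' : Sp R σ T' S') (hz : z ∈ S) (hz2 : z2 ∈ T') :
    hn R ^ 2 ≤ Nf (dR (tk R) (tk R) T S z) (dL (tk R) (tk R) T' S' z2) := by
  have hR := hp.hR
  have hh := hn_pos hR
  have ha := an_pos hR
  have hah := num_ah hR
  refine gap_core hp hp' (intervalIntegrable_dR _ _ _ _ _) (integral_dR _ _ _ hz) hz2 ?_ ?_
  · intro t ht
    rw [cdf_dR hz ht.1 ht.2]
    refine I2_mono ((niceW _ _ _ _).mul (nice_ph _ _)) (nice_R _ _ _ _ _ _) fun x _ y _ => ?_
    exact mul_le_mul_of_nonneg_left (ph_refl _ _ _ _ _) (Helper57.T1.W_nonneg _ _ _ _ _ _)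
  · intro t ht
    rw [cdf_dR hz (by linarith [ht.1]) (by linarith [ht.2])]
    have c1 := cen_lower hp
    have n1 := (niceW (tk R) (tk R) T S).mul (nice_ph (tk R z2) t)
    have n2 := (nice_cen (niceW (tk R) (tk R) T S) (an R / 2)).cmul (hn R / 8)
    have c2 : I2 (fun x y => W (tk R) (tk R) T S x y * ph (tk R z2) t x y
        + hn R / 8 * cen (W (tk R) (tk R) T S) (an R / 2) x y)
        ≤ I2 (fun x y => W (tk R) (tk R) T S x y * (1 - ph (tk R z) (1 - t) (1 - y) (1 - x))) := by
      refine I2_mono (n1.add n2) (nice_R _ _ _ _ _ _) fun x hx y hy => ?_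
      have hW := Helper57.T1.W_nonneg (tk R) (tk R) T S x y
      unfold cen
      split_ifs with hc
      · have g1 := ph_refl_gap (e := tk R z) (e' := tk R z2) (u := an R / 2) (x := x) (y := y) (t := t)
          (by linarith) hc.1 (by linarith [tk_nonneg hR z2]) (tk_le_eighth hR (hp'.mT z2 hz2)) hc.2 hy.2 ht
        have g2 : ph (tk R z2) t x y + hn R / 8 ≤ 1 - ph (tk R z) (1 - t) (1 - y) (1 - x) := by
          linarith [tk_nonneg hR z2]
        have := mul_le_mul_of_nonneg_left g2 hW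
        linarith
      · rw [mul_zero, add_zero]
        exact mul_le_mul_of_nonneg_left (ph_refl _ _ _ _ _) hW
    rw [I2_add n1 n2, I2_cmul] at c2
    have c3 : hn R / 8 * (DD R / 200) ≤ hn R / 8 * I2 (cen (W (tk R) (tk R) T S) (an R / 2)) :=
      mul_le_mul_of_nonneg_left c1 (by linarith)
    linarith

theorem tick_R_sp (hp : Sp R σ T S) (hz : z ∈ S) (hz2 : z2 ≤ Mn R) :
    hn R ^ 2 ≤ ∫ t in (0 : ℝ)..(tk R z2), dR (tk R) (tk R) T S z t := by
  have hR := hp.hR
  have hh := hn_pos hR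
  have ha := an_pos hR
  have hah := num_ah hR
  have h8 := tk_le_eighth hR hz2
  have t0 := tk_nonneg hR z2
  have h81 := tk_le_eighth hR (hp.mS z hz)
  rw [cdf_dR hz (by linarith) (by linarith)]
  have c1 := cen_lower hp
  have c2 : I2 (fun x y => hn R * cen (W (tk R) (tk R) T S) (an R / 2) x y)
      ≤ I2 (fun x y => W (tk R) (tk R) T S x y
        * (1 - ph (tk R z) (1 - tk R z2) (1 - y) (1 - x))) := by
    refine I2_mono ((nice_cen (niceW _ _ _ _) _).cmul _) (nice_R _ _ _ _ _ _) fun x hx y hy => ?_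
    have hW := Helper57.T1.W_nonneg (tk R) (tk R) T S x y
    unfold cen
    split_ifs with hc
    · have g0 := ph_refl (tk R z) (an R / 2) (tk R z2) x y
      have g : hn R ≤ ph (an R / 2) (tk R z2) x y := by
        unfold ph
        rw [max_eq_right hc.1, min_eq_left (by linarith [hc.2]),
          max_eq_right (by linarith), max_eq_right (by linarith [hc.2]),
          le_div_iff₀ (by linarith [hc.2])]
        have : hn R * (y - an R / 2) ≤ hn R * 1 := mul_le_mul_of_nonneg_left (by linarith [hy.2]) hh.le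
        linarith
      have := mul_le_mul_of_nonneg_left (g.trans g0) hW
      linarith
    · rw [mul_zero]
      exact mul_nonneg hW ((ph_nonneg 0 (tk R z2) x y).trans (ph_refl _ _ _ _ _))
  rw [I2_cmul] at c2
  have c3 : hn R * (DD R / 200) ≤ hn R * I2 (cen (W (tk R) (tk R) T S) (an R / 2)) :=
    mul_le_mul_of_nonneg_left c1 hh.le
  have c4 := mul_le_mul_of_nonneg_left (num_hD hR) hh.le
  rw [sq]
  linarith

end Pool.Agent.Helper57.T1
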