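import Pool.Agent.Helper57.T1.Sand

/-! # T1, row R8: the law of a leaf -/

set_option autoImplicit false

open MeasureTheory Set

namespace Pool.Agent.Helper57.T1

open Pool.Agent.T1K

variable {c d : ℕ → ℝ} {T S : Finset ℕ} {x y b t : ℝ} {z z2 : ℕ}

lemma nice_int {F : ℝ → ℝ → ℝ → ℝ} (hm : Measurable fun p : ℝ × ℝ × ℝ => F p.1 p.2.1 p.2.2) {C : ℝ}
    (hC : ∀ s ∈ Icc (0 : ℝ) 1, ∀ x ∈ Icc (0 : ℝ) 1, ∀ y ∈ Icc (0 : ℝ) 1, |F s x y| ≤ C)
    {u v : ℝ} (hu : 0 ≤ u) (huv : u ≤ v) (hv : v ≤ 1) :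
    Nice (fun x y => ∫ s in u..v, F s x y) := by
  have h0 : (0 : ℝ) ∈ Icc (0 : ℝ) 1 := ⟨le_rfl, zero_le_one⟩
  have hC0 : 0 ≤ C := (abs_nonneg _).trans (hC 0 h0 0 h0 0 h0)
  refine ⟨?_, C, fun x hx y hy => ?_⟩
  · have h1 : StronglyMeasurable fun q : (ℝ × ℝ) × ℝ => F q.2 q.1.1 q.1.2 :=
      (hm.comp (by fun_prop : Measurable fun q : (ℝ × ℝ) × ℝ => (q.2, q.1.1, q.1.2))).stronglyMeasurable
    simp_rw [intervalIntegral.integral_of_le huv]
    exact h1.integral_prod_right'.measurable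
  · have := intervalIntegral.norm_integral_le_of_norm_le_const (a := u) (b := v) (C := C)
      (f := fun s => F s x y) (fun s hs => by
        rw [Set.uIoc_of_le huv] at hs
        exact hC s ⟨hu.trans hs.1.le, hs.2.trans hv⟩ x hx y hy)
    rw [Real.norm_eq_abs] at this
    refine this.trans ?_
    rw [abs_of_nonneg (by linarith)]
    nlinarith

/-- Fubini for an additional variable -/
lemma swap3 {F : ℝ → ℝ → ℝ → ℝ} (hm : Measurable fun p : ℝ × ℝ × ℝ => F p.1 p.2.1 p.2.2) {C : ℝ}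
    (hC : ∀ s ∈ Icc (0 : ℝ) 1, ∀ x ∈ Icc (0 : ℝ) 1, ∀ y ∈ Icc (0 : ℝ) 1, |F s x y| ≤ C)
    {u v : ℝ} (hu : 0 ≤ u) (huv : u ≤ v) (hv : v ≤ 1) :
    ∫ s in u..v, I2 (F s) = I2 (fun x y => ∫ s in u..v, F s x y) := by
  have hn : ∀ s ∈ Icc (0 : ℝ) 1, Nice (F s) := fun s hs =>
    ⟨hm.comp (by fun_prop : Measurable fun p : ℝ × ℝ => (s, p.1, p.2)), C, hC s hs⟩
  have hfin : IsFiniteMeasure ((volume : Measure (ℝ × ℝ)).restrict Sq) :=
    ⟨by rw [Measure.restrict_apply_univ, volSq]; exact ENNReal.one_lt_top⟩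
  have hint : Integrable (Function.uncurry fun (s : ℝ) (p : ℝ × ℝ) => F s p.1 p.2)
      ((volume.restrict (Set.uIoc u v)).prod (volume.restrict Sq)) := by
    rw [Set.uIoc_of_le huv]
    refine Integrable.of_bound hm.aestronglyMeasurable C ?_
    rw [Measure.prod_restrict]
    refine (ae_restrict_iff' (measurableSet_Ioc.prod measSq)).2 (Filter.Eventually.of_forall ?_)
    rintro ⟨s, p⟩ ⟨hs, hp⟩
    exact hC s ⟨hu.trans hs.1.le, hs.2.trans hv⟩ _ (memSq hp).1 _ (memSq hp).2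
  have h1 : ∫ s in u..v, I2 (F s) = ∫ s in u..v, ∫ p in Sq, F s p.1 p.2 := by
    refine intervalIntegral.integral_congr fun s hs => ?_
    rw [Set.uIcc_of_le huv] at hs
    exact I2_eq (hn s ⟨hu.trans hs.1, hs.2.trans hv⟩)
  rw [h1, intervalIntegral_integral_swap hint, I2_eq (nice_int hm hC hu huv hv)]

/-- length of the part of the interval from `a` to `y` below `t` -/
lemma int_ind {a v w : ℝ} (ha : 0 ≤ a) (ht0 : 0 ≤ t) :
    ∫ s in (0 : ℝ)..t, (if a < s ∧ s < v then w else 0) = w * max 0 (min t v - a) := by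
  classical
  have h1 : ∫ s in (0 : ℝ)..t, (if a < s ∧ s < v then w else 0)
      = ∫ s in Ioc 0 t, (Ioo a v).indicator (fun _ => w) s := by
    rw [intervalIntegral.integral_of_le ht0]
    simp only [Set.indicator, mem_Ioo]
  rw [h1, setIntegral_indicator measurableSet_Ioo, setIntegral_const, smul_eq_mul, mul_comm]
  congr 1
  have h2 : (Ioc 0 t ∩ Ioo a v : Set ℝ) =ᵐ[volume] (Ioc a (min t v) : Set ℝ) := by
    have h3 : (Ioc 0 t ∩ Ioc a v : Set ℝ) = Ioc a (min t v) := by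
      ext s
      simp only [mem_inter_iff, mem_Ioc, le_min_iff]
      constructor
      · rintro ⟨⟨_, h2⟩, h3, h4⟩; exact ⟨h3, h2, h4⟩
      · rintro ⟨h3, h2, h4⟩; exact ⟨⟨ha.trans_lt h3, h2⟩, h3, h4⟩
    rw [← h3]
    exact (ae_eq_refl _).inter Ioo_ae_eq_Ioc
  rw [measureReal_congr h2, Real.volume_real_Ioc]
  rw [max_comm]

/-- the kernel of a leaf: the part of the interval below `t`, relative to its length -/
noncomputable def ph (e t x y : ℝ) : ℝ := max 0 (min t y - max x e) / max 0 (y - max x e)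

lemma ph_nonneg (e t x y : ℝ) : 0 ≤ ph e t x y := div_nonneg (le_max_left _ _) (le_max_left _ _)

lemma ph_le_one (e t x y : ℝ) : ph e t x y ≤ 1 :=
  div_le_one_of_le₀ (max_le_max le_rfl (by linarith [min_le_right t y])) (le_max_left _ _)

lemma meas_ph (e t : ℝ) : Measurable fun p : ℝ × ℝ => ph e t p.1 p.2 := by
  unfold ph
  fun_prop

lemma nice_ph (e t : ℝ) : Nice (ph e t) :=
  ⟨meas_ph e t, 1, fun x _ y _ => by rw [abs_of_nonneg (ph_nonneg _ _ _ _)]; exact ph_le_one _ _ _ _⟩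

/-- the factor of the leaf `z` -/
lemma W_erase (hz : z ∈ T) (x y : ℝ) :
    W c d T S x y = W c d (T.erase z) S x y * max 0 (y - max x (c z)) := by
  unfold W Phi
  rw [← Finset.mul_prod_erase T _ hz]
  ring

lemma W_erase_ph (hz : z ∈ T) (t x y : ℝ) :
    W c d (T.erase z) S x y * max 0 (min t y - max x (c z)) = W c d T S x y * ph (c z) t x y := by
  rw [W_erase hz]
  unfold ph
  rcases eq_or_lt_of_le (le_max_left 0 (y - max x (c z))) with h | h
  · have h1 : max 0 (min t y - max x (c z)) = 0 := by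
      refine le_antisymm ?_ (le_max_left _ _)
      have h3 : max 0 (min t y - max x (c z)) ≤ max 0 (y - max x (c z)) :=
        max_le_max le_rfl (by linarith [min_le_right t y])
      linarith
    rw [h1, ← h]
    simp
  · field_simp

lemma W_le_erase (hz : z ∈ T) (hx : 0 ≤ x) (hy : y ≤ 1) : W c d T S x y ≤ W c d (T.erase z) S x y := by
  rw [W_erase hz]
  refine mul_le_of_le_one_right (W_nonneg _ _ _ _ _ _) (max_le zero_le_one ?_)
  linarith [le_max_left x (c z)]

lemma dL_nonneg (t : ℝ) : 0 ≤ dL c d T S z t := by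
  unfold dL
  refine intervalIntegral.integral_nonneg zero_le_one fun x _ =>
    intervalIntegral.integral_nonneg zero_le_one fun y _ => ?_
  split_ifs
  · exact W_nonneg _ _ _ _ _ _
  · exact le_rfl

open Classical in
lemma dL_def (t : ℝ) : dL c d T S z t = I2 (fun x y =>
    if max x (c z) < t ∧ t < y then W c d (T.erase z) S x y else 0) := by
  rfl

open Classical in
lemma meas_ind (c d : ℕ → ℝ) (T S : Finset ℕ) (z : ℕ) : Measurable fun p : ℝ × ℝ × ℝ =>
    if max p.2.1 (c z) < p.1 ∧ p.1 < p.2.2 then W c d (T.erase z) S p.2.1 p.2.2 else 0 := by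
  refine Measurable.ite ?_ ((cont_W c d (T.erase z) S).measurable.comp (by fun_prop)) measurable_const
  exact (measurableSet_lt (f := fun p : ℝ × ℝ × ℝ => max p.2.1 (c z)) (g := fun p => p.1)
    (by fun_prop) (by fun_prop)).inter
    (measurableSet_lt (f := fun p : ℝ × ℝ × ℝ => p.1) (g := fun p => p.2.2) (by fun_prop) (by fun_prop))

open Classical in
lemma bdd_ind (c d : ℕ → ℝ) (T S : Finset ℕ) (z : ℕ) : ∀ s ∈ Icc (0 : ℝ) 1, ∀ x ∈ Icc (0 : ℝ) 1,
    ∀ y ∈ Icc (0 : ℝ) 1, |(if max x (c z) < s ∧ s < y then W c d (T.erase z) S x y else 0)| ≤ 1 := by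
  intro s _ x hx y hy
  split_ifs
  · rw [abs_of_nonneg (W_nonneg _ _ _ _ _ _)]; exact W_le_one hx hy
  · simp

open Classical in
lemma nice_ind (hs : t ∈ Icc (0 : ℝ) 1) : Nice (fun x y =>
    if max x (c z) < t ∧ t < y then W c d (T.erase z) S x y else 0) :=
  ⟨(meas_ind c d T S z).comp (by fun_prop : Measurable fun p : ℝ × ℝ => (t, p.1, p.2)), 1,
    bdd_ind c d T S z t hs⟩

lemma dL_le (m : ℕ) (hm : T.card + S.card = m + 2) (hz : z ∈ T) (ht : t ∈ Icc (0 : ℝ) 1) :
    dL c d T S z t ≤ 1 / ((m + 2) * (m + 3)) := by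
  classical
  have hc : (T.erase z).card + S.card = m + 1 := by
    rw [Finset.card_erase_of_mem hz]
    have := Finset.card_pos.2 ⟨z, hz⟩
    omega
  rw [dL_def]
  refine le_trans (I2_mono (nice_ind ht) (niceW c d (T.erase z) S) fun x _ y _ => ?_)
    (Vol_le (c := c) (d := d) m hc)
  split_ifs
  · exact le_rfl
  · exact W_nonneg _ _ _ _ _ _

lemma meas_dL (c d : ℕ → ℝ) (T S : Finset ℕ) (z : ℕ) : Measurable (dL c d T S z) := by
  classical
  have h1 : StronglyMeasurable fun q : (ℝ × ℝ) × ℝ => (if max q.1.2 (c z) < q.1.1 ∧ q.1.1 < q.2 then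
      W c d (T.erase z) S q.1.2 q.2 else 0) :=
    ((meas_ind c d T S z).comp
      (by fun_prop : Measurable fun q : (ℝ × ℝ) × ℝ => (q.1.1, q.1.2, q.2))).stronglyMeasurable
  have h2 := h1.integral_prod_right' (ν := volume.restrict (Ioc (0 : ℝ) 1))
  have h3 := h2.integral_prod_right' (ν := volume.restrict (Ioc (0 : ℝ) 1))
  have e : dL c d T S z = fun t => ∫ x in Ioc (0 : ℝ) 1, ∫ y in Ioc (0 : ℝ) 1,
      (if max x (c z) < t ∧ t < y then W c d (T.erase z) S x y else 0) := by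
    funext t
    unfold dL
    rw [intervalIntegral.integral_of_le zero_le_one]
    simp_rw [intervalIntegral.integral_of_le zero_le_one]
  rw [e]
  exact h3.measurable

lemma int_dL_sub {u v : ℝ} (hu : 0 ≤ u) (huv : u ≤ v) (hv : v ≤ 1) :
    IntervalIntegrable (dL c d T S z) volume u v := by
  classical
  rw [intervalIntegrable_iff_integrableOn_Ioc_of_le huv]
  refine IntegrableOn.of_bound measure_Ioc_lt_top (meas_dL c d T S z).aestronglyMeasurable 1 ?_
  refine (ae_restrict_iff' measurableSet_Ioc).2 (Filter.Eventually.of_forall fun t ht => ?_)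
  have ht' : t ∈ Icc (0 : ℝ) 1 := ⟨hu.trans ht.1.le, ht.2.trans hv⟩
  rw [Real.norm_eq_abs, abs_of_nonneg (dL_nonneg t), dL_def]
  have h := I2_mono (nice_ind (c := c) (d := d) (T := T) (S := S) (z := z) ht') (Nice.const 1)
    (fun x hx y hy => (le_abs_self _).trans (bdd_ind c d T S z t ht' x hx y hy))
  rwa [I2_const] at h

/-- distribution function of a leaf -/
lemma cdf_dL (hz : z ∈ T) (h0 : 0 ≤ t) (h1 : t ≤ 1) :
    ∫ s in (0 : ℝ)..t, dL c d T S z s = I2 (fun x y => W c d T S x y * ph (c z) t x y) := by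
  classical
  have h := swap3 (meas_ind c d T S z) (bdd_ind c d T S z) le_rfl h0 h1
  have e : ∫ s in (0 : ℝ)..t, dL c d T S z s = ∫ s in (0 : ℝ)..t, I2 (fun x y =>
    if max x (c z) < s ∧ s < y then W c d (T.erase z) S x y else 0) := by
    refine intervalIntegral.integral_congr fun s _ => ?_
    exact dL_def s
  rw [e, h]
  refine I2_congr fun x hx y _ => ?_
  rw [int_ind (hx.1.trans (le_max_left _ _)) h0, W_erase_ph hz]

end Pool.Agent.Helper57.T1
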