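import Pool.Agent.Helper57.T1.Basic

/-! # T1, row R8: lower bounds for `Nf` -/

set_option autoImplicit false

open MeasureTheory Set intervalIntegral

namespace Pool.Agent.Helper57.T1

open Pool.Agent.T1K

variable {f g : ℝ → ℝ}

lemma cont_prim (hf : IntervalIntegrable f volume 0 1) :
    ContinuousOn (fun t => ∫ s in (0 : ℝ)..t, f s) (uIcc 0 1) :=
  intervalIntegral.continuousOn_primitive_interval' hf ⟨by simp, by simp⟩

lemma sub_int (hf : IntervalIntegrable f volume 0 1) {u v : ℝ} (hu : 0 ≤ u) (huv : u ≤ v)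
    (hv : v ≤ 1) : IntervalIntegrable f volume u v := by
  refine hf.mono_set ?_
  rw [Set.uIcc_of_le huv, Set.uIcc_of_le zero_le_one]
  exact Icc_subset_Icc hu hv

/-- `Nf` with one primitive -/
lemma Nf_eq (hf : IntervalIntegrable f volume 0 1) :
    Nf f g = ∫ t in (0 : ℝ)..1, g t * (2 * (∫ s in (0 : ℝ)..t, f s) - ∫ s in (0 : ℝ)..1, f s) := by
  unfold Nf
  refine intervalIntegral.integral_congr fun t ht => ?_
  rw [Set.uIcc_of_le zero_le_one] at ht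
  have h := intervalIntegral.integral_add_adjacent_intervals (sub_int hf le_rfl ht.1 ht.2)
    (sub_int hf ht.1 ht.2 le_rfl)
  congr 1
  linarith

lemma int_mul (hf : IntervalIntegrable f volume 0 1) (hg : IntervalIntegrable g volume 0 1)
    (c k : ℝ) : IntervalIntegrable (fun t => g t * (c * (∫ s in (0 : ℝ)..t, f s) - k)) volume 0 1 :=
  hg.mul_continuousOn ((continuousOn_const.mul (cont_prim hf)).sub continuousOn_const)

lemma prim_mono (hf : IntervalIntegrable f volume 0 1) (hf0 : ∀ t ∈ Icc (0 : ℝ) 1, 0 ≤ f t)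
    {u v : ℝ} (hu : 0 ≤ u) (huv : u ≤ v) (hv : v ≤ 1) :
    ∫ s in (0 : ℝ)..u, f s ≤ ∫ s in (0 : ℝ)..v, f s := by
  have h := intervalIntegral.integral_add_adjacent_intervals
    (sub_int hf le_rfl hu (huv.trans hv)) (sub_int hf hu huv hv)
  have h2 : 0 ≤ ∫ s in u..v, f s :=
    intervalIntegral.integral_nonneg huv fun s hs => hf0 s ⟨hu.trans hs.1, hs.2.trans hv⟩
  linarith

lemma prim_nonneg (hf0 : ∀ t ∈ Icc (0 : ℝ) 1, 0 ≤ f t) {u v : ℝ} (hu : 0 ≤ u) (huv : u ≤ v)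
    (hv : v ≤ 1) : 0 ≤ ∫ s in u..v, f s :=
  intervalIntegral.integral_nonneg huv fun s hs => hf0 s ⟨hu.trans hs.1, hs.2.trans hv⟩

/-- separated laws -/
theorem Nf_low (hf : IntervalIntegrable f volume 0 1) (hg : IntervalIntegrable g volume 0 1)
    (hf0 : ∀ t ∈ Icc (0 : ℝ) 1, 0 ≤ f t) (hg0 : ∀ t ∈ Icc (0 : ℝ) 1, 0 ≤ g t)
    {s : ℝ} (h0 : 0 ≤ s) (h1 : s ≤ 1) :
    (∫ t in (0 : ℝ)..1, f t) * (∫ t in (0 : ℝ)..1, g t)
      - 2 * (∫ t in s..1, f t) * (∫ t in (0 : ℝ)..1, g t)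
      - 2 * (∫ t in (0 : ℝ)..1, f t) * (∫ t in (0 : ℝ)..s, g t) ≤ Nf f g := by
  classical
  rw [Nf_eq hf]
  set F := ∫ t in (0 : ℝ)..1, f t
  set F' := ∫ t in s..1, f t
  set G := ∫ t in (0 : ℝ)..1, g t
  have hadd := intervalIntegral.integral_add_adjacent_intervals (sub_int hf le_rfl h0 h1)
    (sub_int hf h0 h1 le_rfl)
  have hF' : 0 ≤ F' := prim_nonneg hf0 h0 h1 le_rfl
  have e : G * (F - 2 * F') - 2 * F * (∫ t in (0 : ℝ)..s, g t)
      = (∫ t in (0 : ℝ)..s, g t * (F - 2 * F' - 2 * F)) + ∫ t in s..1, g t * (F - 2 * F') := by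
    have h2 := intervalIntegral.integral_add_adjacent_intervals (sub_int hg le_rfl h0 h1)
      (sub_int hg h0 h1 le_rfl)
    rw [intervalIntegral.integral_mul_const, intervalIntegral.integral_mul_const]
    change (∫ t in (0 : ℝ)..s, g t) + (∫ t in s..1, g t) = G at h2
    rw [← h2]
    ring
  have hI := int_mul hf hg 2 F
  have h3 : (∫ t in (0 : ℝ)..s, g t * (F - 2 * F' - 2 * F))
      ≤ ∫ t in (0 : ℝ)..s, g t * (2 * (∫ s in (0 : ℝ)..t, f s) - F) := by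
    refine intervalIntegral.integral_mono_on h0 ((sub_int hg le_rfl h0 h1).mul_const _)
      (sub_int hI le_rfl h0 h1) fun t ht => ?_
    have h5 := prim_nonneg hf0 le_rfl ht.1 (ht.2.trans h1)
    refine mul_le_mul_of_nonneg_left ?_ (hg0 t ⟨ht.1, ht.2.trans h1⟩)
    linarith
  have h4 : (∫ t in s..1, g t * (F - 2 * F'))
      ≤ ∫ t in s..1, g t * (2 * (∫ s in (0 : ℝ)..t, f s) - F) := by
    refine intervalIntegral.integral_mono_on h1 ((sub_int hg h0 h1 le_rfl).mul_const _)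
      (sub_int hI h0 h1 le_rfl) fun t ht => ?_
    have h5 := prim_mono hf hf0 h0 ht.1 ht.2
    refine mul_le_mul_of_nonneg_left ?_ (hg0 t ⟨h0.trans ht.1, ht.2⟩)
    linarith
  have h5 := intervalIntegral.integral_add_adjacent_intervals (sub_int hI le_rfl h0 h1)
    (sub_int hI h0 h1 le_rfl)
  rw [← h5]
  nlinarith

/-- comparison of distribution functions -/
theorem Nf_comp (hf : IntervalIntegrable f volume 0 1) (hg : IntervalIntegrable g volume 0 1)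
    (hg0 : ∀ t ∈ Icc (0 : ℝ) 1, 0 ≤ g t) (hgg : Nf g g = 0) {lam eps del : ℝ}
    (hlam : lam * (∫ t in (0 : ℝ)..1, g t) = ∫ t in (0 : ℝ)..1, f t) (hde : 0 ≤ del + eps)
    (h1 : ∀ t ∈ Icc (0 : ℝ) 1, lam * (∫ s in (0 : ℝ)..t, g s) - eps ≤ ∫ s in (0 : ℝ)..t, f s)
    (h2 : ∀ t ∈ Icc (1 / 4 : ℝ) (3 / 4), lam * (∫ s in (0 : ℝ)..t, g s) + del ≤ ∫ s in (0 : ℝ)..t, f s) :
    2 * (del + eps) * (∫ t in (1 / 4 : ℝ)..(3 / 4), g t) - 2 * eps * (∫ t in (0 : ℝ)..1, g t) ≤ Nf f g := by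
  set G := ∫ t in (0 : ℝ)..1, g t
  set F := ∫ t in (0 : ℝ)..1, f t
  have e1 : Nf f g - lam * Nf g g
      = ∫ t in (0 : ℝ)..1, g t * (2 * ((∫ s in (0 : ℝ)..t, f s) - lam * ∫ s in (0 : ℝ)..t, g s)) := by
    rw [Nf_eq hf, Nf_eq hg, ← intervalIntegral.integral_const_mul,
      ← intervalIntegral.integral_sub (int_mul hf hg 2 _) ((int_mul hg hg 2 _).const_mul lam)]
    refine intervalIntegral.integral_congr fun t _ => ?_
    change g t * (2 * (∫ s in (0 : ℝ)..t, f s) - F) - lam * (g t * (2 * (∫ s in (0 : ℝ)..t, g s) - G)) = _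
    rw [← hlam]
    ring
  rw [hgg, mul_zero, sub_zero] at e1
  rw [e1]
  have hI : IntervalIntegrable (fun t => g t * (2 * ((∫ s in (0 : ℝ)..t, f s)
      - lam * ∫ s in (0 : ℝ)..t, g s))) volume 0 1 :=
    hg.mul_continuousOn (continuousOn_const.mul ((cont_prim hf).sub (continuousOn_const.mul (cont_prim hg))))
  have q0 : (0 : ℝ) ≤ 1 / 4 := by norm_num
  have q1 : (1 / 4 : ℝ) ≤ 3 / 4 := by norm_num
  have q2 : (3 / 4 : ℝ) ≤ 1 := by norm_num
  have q3 : (1 / 4 : ℝ) ≤ 1 := by norm_num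
  have q4 : (0 : ℝ) ≤ 3 / 4 := by norm_num
  have hb : ∀ t ∈ Icc (0 : ℝ) 1, g t * (-(2 * eps)) ≤ g t * (2 * ((∫ s in (0 : ℝ)..t, f s)
      - lam * ∫ s in (0 : ℝ)..t, g s)) := fun t ht =>
    mul_le_mul_of_nonneg_left (by linarith [h1 t ht]) (hg0 t ht)
  have a1 : ∫ t in (0 : ℝ)..(1 / 4), g t * (-(2 * eps)) ≤ ∫ t in (0 : ℝ)..(1 / 4), g t * (2 * ((∫ s in (0 : ℝ)..t, f s)
      - lam * ∫ s in (0 : ℝ)..t, g s)) :=
    intervalIntegral.integral_mono_on q0 ((sub_int hg le_rfl q0 q3).mul_const _) (sub_int hI le_rfl q0 q3)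
      fun t ht => hb t ⟨ht.1, ht.2.trans q3⟩
  have a3 : ∫ t in (3 / 4 : ℝ)..1, g t * (-(2 * eps)) ≤ ∫ t in (3 / 4 : ℝ)..1, g t * (2 * ((∫ s in (0 : ℝ)..t, f s)
      - lam * ∫ s in (0 : ℝ)..t, g s)) :=
    intervalIntegral.integral_mono_on q2 ((sub_int hg q4 q2 le_rfl).mul_const _) (sub_int hI q4 q2 le_rfl)
      fun t ht => hb t ⟨q4.trans ht.1, ht.2⟩
  have a2 : ∫ t in (1 / 4 : ℝ)..(3 / 4), g t * (2 * del) ≤ ∫ t in (1 / 4 : ℝ)..(3 / 4), g t * (2 * ((∫ s in (0 : ℝ)..t, f s)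
      - lam * ∫ s in (0 : ℝ)..t, g s)) :=
    intervalIntegral.integral_mono_on q1 ((sub_int hg q0 q1 q2).mul_const _) (sub_int hI q0 q1 q2)
      fun t ht => mul_le_mul_of_nonneg_left (by linarith [h2 t ht]) (hg0 t ⟨q0.trans ht.1, ht.2.trans q2⟩)
  have s1 := intervalIntegral.integral_add_adjacent_intervals (sub_int hI le_rfl q0 q3) (sub_int hI q0 q1 q2)
  have s2 := intervalIntegral.integral_add_adjacent_intervals (sub_int hI le_rfl q4 q2) (sub_int hI q4 q2 le_rfl)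
  have t1 := intervalIntegral.integral_add_adjacent_intervals (sub_int hg le_rfl q0 q3) (sub_int hg q0 q1 q2)
  have t2 := intervalIntegral.integral_add_adjacent_intervals (sub_int hg le_rfl q4 q2) (sub_int hg q4 q2 le_rfl)
  rw [intervalIntegral.integral_mul_const] at a1 a2 a3
  rw [← s2, ← s1]
  have hG : G = (∫ t in (0 : ℝ)..(1 / 4), g t) + (∫ t in (1 / 4 : ℝ)..(3 / 4), g t)
      + ∫ t in (3 / 4 : ℝ)..1, g t := by
    rw [t1, t2]
  rw [hG]
  linarith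

end Pool.Agent.Helper57.T1
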