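import Pool.Agent.Helper57.T1.Basic

/-! # T1, row R8: the weight of a species between two powers of the distance from the diagonal -/

set_option autoImplicit false

open MeasureTheory Set

namespace Pool.Agent.Helper57.T1

open Pool.Agent.T1K

variable {c d : ℕ → ℝ} {T S : Finset ℕ} {x y b : ℝ}

lemma Phi_nonneg (c : ℕ → ℝ) (T : Finset ℕ) (x y : ℝ) : 0 ≤ Phi c T x y :=
  Finset.prod_nonneg fun _ _ => le_max_left _ _

lemma Phi_le (c : ℕ → ℝ) (T : Finset ℕ) (x y : ℝ) : Phi c T x y ≤ (max 0 (y - x)) ^ T.card := by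
  unfold Phi
  rw [← Finset.prod_const]
  refine Finset.prod_le_prod (fun _ _ => le_max_left _ _) fun z _ => ?_
  exact max_le_max le_rfl (by linarith [le_max_left x (c z)])

lemma Phi_ge (hx : 0 ≤ x) (hb : 0 ≤ b) (hc : ∀ z ∈ T, c z ≤ b) :
    (max 0 (y - x - b)) ^ T.card ≤ Phi c T x y := by
  unfold Phi
  rw [← Finset.prod_const]
  refine Finset.prod_le_prod (fun _ _ => le_max_left _ _) fun z hz => ?_
  refine max_le_max le_rfl ?_
  have : max x (c z) ≤ x + b := max_le (by linarith) (by linarith [hc z hz])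
  linarith

lemma W_nonneg (c d : ℕ → ℝ) (T S : Finset ℕ) (x y : ℝ) : 0 ≤ W c d T S x y :=
  mul_nonneg (Phi_nonneg _ _ _ _) (Phi_nonneg _ _ _ _)

lemma W_le (c d : ℕ → ℝ) (T S : Finset ℕ) (x y : ℝ) :
    W c d T S x y ≤ (max 0 (y - x)) ^ (T.card + S.card) := by
  unfold W
  rw [pow_add]
  have h2 := Phi_le d S (1 - y) (1 - x)
  have e : (1 : ℝ) - x - (1 - y) = y - x := by ring
  rw [e] at h2
  exact mul_le_mul (Phi_le c T x y) h2 (Phi_nonneg _ _ _ _) (by positivity)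

lemma W_ge (hx : 0 ≤ x) (hy : y ≤ 1) (hb : 0 ≤ b) (hc : ∀ z ∈ T, c z ≤ b) (hd : ∀ z ∈ S, d z ≤ b) :
    (max 0 (y - x - b)) ^ (T.card + S.card) ≤ W c d T S x y := by
  unfold W
  rw [pow_add]
  have h2 := Phi_ge (c := d) (T := S) (x := 1 - y) (y := 1 - x) (by linarith) hb hd
  have e : (1 : ℝ) - x - (1 - y) - b = y - x - b := by ring
  rw [e] at h2
  exact mul_le_mul (Phi_ge hx hb hc) h2 (by positivity) (Phi_nonneg _ _ _ _)

lemma cont_Phi (c : ℕ → ℝ) (T : Finset ℕ) : Continuous fun p : ℝ × ℝ => Phi c T p.1 p.2 := by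
  unfold Phi
  exact continuous_finset_prod _ fun z _ => by fun_prop

lemma cont_W (c d : ℕ → ℝ) (T S : Finset ℕ) : Continuous fun p : ℝ × ℝ => W c d T S p.1 p.2 := by
  unfold W
  refine (cont_Phi c T).mul ?_
  exact (cont_Phi d S).comp (by fun_prop : Continuous fun p : ℝ × ℝ => (1 - p.2, 1 - p.1))

lemma dist_le_one (hx : 0 ≤ x) (hy : y ≤ 1) : max 0 (y - x) ≤ 1 :=
  max_le zero_le_one (by linarith)

lemma W_le_one (hx : x ∈ Icc (0 : ℝ) 1) (hy : y ∈ Icc (0 : ℝ) 1) : W c d T S x y ≤ 1 :=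
  (W_le c d T S x y).trans (pow_le_one₀ (le_max_left _ _) (dist_le_one hx.1 hy.2))

lemma niceW (c d : ℕ → ℝ) (T S : Finset ℕ) : Nice (W c d T S) :=
  ⟨(cont_W c d T S).measurable, 1, fun x hx y hy => by
    rw [abs_of_nonneg (W_nonneg _ _ _ _ _ _)]; exact W_le_one hx hy⟩

lemma nicePow (b : ℝ) (hb : 0 ≤ b) (m : ℕ) : Nice (fun x y => (max 0 (y - x - b)) ^ m) :=
  ⟨(by fun_prop : Continuous fun p : ℝ × ℝ => (max 0 (p.2 - p.1 - b)) ^ m).measurable, 1,
    fun x hx y hy => by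
      rw [abs_of_nonneg (by positivity)]
      exact pow_le_one₀ (le_max_left _ _) (max_le zero_le_one (by linarith [hx.1, hy.2]))⟩

lemma Vol_eq (c d : ℕ → ℝ) (T S : Finset ℕ) : Vol c d T S = I2 (W c d T S) := rfl

/-- integral of the power over `x ≥ u` -/
lemma pow_gt (m : ℕ) (hb : 0 ≤ b) {u : ℝ} (h0 : 0 ≤ u) (h1 : u ≤ 1) :
    ∫ x in u..1, ∫ y in (0 : ℝ)..1, (max 0 (y - x - b)) ^ (m + 1)
      = (max 0 (1 - (u + b))) ^ (m + 3) / ((m + 2) * (m + 3)) := by
  have e : ∀ x ∈ uIcc u 1, ∫ y in (0 : ℝ)..1, (max 0 (y - x - b)) ^ (m + 1)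
      = (max 0 (1 - (x + b))) ^ (m + 1 + 1) / (m + 2) := by
    intro x hx
    rw [Set.uIcc_of_le h1] at hx
    simp_rw [sub_sub]
    rw [int_pow m (by linarith [hx.1] : (0 : ℝ) ≤ x + b)]
  rw [intervalIntegral.integral_congr e, intervalIntegral.integral_div,
    int_pow' (m + 1) h1 hb]
  push_cast
  rw [div_div]
  congr 1
  ring

lemma pow_all (m : ℕ) (hb : 0 ≤ b) :
    I2 (fun x y => (max 0 (y - x - b)) ^ (m + 1)) = (max 0 (1 - b)) ^ (m + 3) / ((m + 2) * (m + 3)) := by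
  have := pow_gt m hb le_rfl zero_le_one
  rw [zero_add] at this
  exact this

lemma Vol_le (m : ℕ) (hm : T.card + S.card = m + 1) : Vol c d T S ≤ 1 / ((m + 2) * (m + 3)) := by
  have h := pow_all m (le_refl (0 : ℝ))
  simp only [sub_zero, max_eq_right zero_le_one, one_pow] at h
  rw [← h, Vol_eq]
  refine I2_mono (niceW _ _ _ _) (by simpa using nicePow 0 le_rfl (m + 1)) fun x _ y _ => ?_
  rw [← hm]
  exact W_le c d T S x y

lemma Vol_ge (m : ℕ) (hm : T.card + S.card = m + 1) (hb : 0 ≤ b) (hc : ∀ z ∈ T, c z ≤ b)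
    (hd : ∀ z ∈ S, d z ≤ b) : (max 0 (1 - b)) ^ (m + 3) / ((m + 2) * (m + 3)) ≤ Vol c d T S := by
  rw [← pow_all m hb, Vol_eq]
  refine I2_mono (nicePow b hb (m + 1)) (niceW _ _ _ _) fun x hx y hy => ?_
  rw [← hm]
  exact W_ge hx.1 hy.2 hb hc hd

lemma cont_dX (c d : ℕ → ℝ) (T S : Finset ℕ) : Continuous (dX c d T S) := by
  unfold dX
  exact intervalIntegral.continuous_parametric_intervalIntegral_of_continuous' (cont_W c d T S) _ _

lemma dX_nonneg (t : ℝ) : 0 ≤ dX c d T S t :=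
  intervalIntegral.integral_nonneg zero_le_one fun _ _ => W_nonneg _ _ _ _ _ _

lemma contW_y (c d : ℕ → ℝ) (T S : Finset ℕ) (x : ℝ) : Continuous (fun y => W c d T S x y) :=
  (cont_W c d T S).comp (by fun_prop : Continuous fun y : ℝ => (x, y))

lemma dX_le (m : ℕ) (hm : T.card + S.card = m + 1) {t : ℝ} (h0 : 0 ≤ t) (h1 : t ≤ 1) :
    dX c d T S t ≤ (1 - t) ^ (m + 2) / (m + 2) := by
  have h := int_pow m h0
  rw [max_eq_right (by linarith : (0 : ℝ) ≤ 1 - t)] at h
  rw [← h]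
  unfold dX
  refine intervalIntegral.integral_mono_on zero_le_one ((contW_y c d T S t).intervalIntegrable _ _)
    (Continuous.intervalIntegrable (by fun_prop) _ _) fun y _ => ?_
  rw [← hm]
  exact W_le c d T S t y

lemma dX_tail (m : ℕ) (hm : T.card + S.card = m + 1) {u : ℝ} (h0 : 0 ≤ u) (h1 : u ≤ 1) :
    ∫ t in u..1, dX c d T S t ≤ (1 - u) ^ (m + 3) / ((m + 2) * (m + 3)) := by
  have h := int_pow' (m + 1) (b := 0) h1 le_rfl
  simp only [add_zero] at h
  have e : ∫ x in u..1, (max 0 (1 - x)) ^ (m + 1 + 1) = ∫ x in u..1, (1 - x) ^ (m + 2) := by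
    refine intervalIntegral.integral_congr fun x hx => ?_
    rw [Set.uIcc_of_le h1] at hx
    try simp only
    rw [max_eq_right (by linarith [hx.2])]
  rw [e, max_eq_right (by linarith : (0 : ℝ) ≤ 1 - u)] at h
  calc ∫ t in u..1, dX c d T S t ≤ ∫ t in u..1, (1 - t) ^ (m + 2) / (m + 2) := by
        refine intervalIntegral.integral_mono_on h1 ((cont_dX c d T S).intervalIntegrable _ _)
          (Continuous.intervalIntegrable (by fun_prop) _ _) fun t ht => ?_
        exact dX_le m hm (h0.trans ht.1) ht.2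
    _ = (1 - u) ^ (m + 3) / ((m + 2) * (m + 3)) := by
        rw [intervalIntegral.integral_div, h]
        push_cast
        rw [div_div]
        congr 1
        ring

lemma dX_head (m : ℕ) (hm : T.card + S.card = m + 1) {u : ℝ} (h0 : 0 ≤ u) (h1 : u ≤ 1) :
    ∫ t in (0 : ℝ)..u, dX c d T S t ≤ u / (m + 2) := by
  calc ∫ t in (0 : ℝ)..u, dX c d T S t ≤ ∫ _ in (0 : ℝ)..u, (1 : ℝ) / (m + 2) := by
        refine intervalIntegral.integral_mono_on h0 ((cont_dX c d T S).intervalIntegrable _ _)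
          (Continuous.intervalIntegrable (by fun_prop) _ _) fun t ht => ?_
        refine (dX_le m hm ht.1 (ht.2.trans h1)).trans ?_
        gcongr
        exact pow_le_one₀ (by linarith [ht.2]) (by linarith [ht.1])
    _ = u / (m + 2) := by
        rw [intervalIntegral.integral_const, smul_eq_mul, sub_zero]
        ring

lemma int_dX (c d : ℕ → ℝ) (T S : Finset ℕ) : ∫ t in (0 : ℝ)..1, dX c d T S t = Vol c d T S := rfl

end Pool.Agent.Helper57.T1
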