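import Pool.Agent.Helper57.T1.Const
import Pool.Agent.Helper57.T1.NfB
import Pool.Agent.T1K.Refl
import Pool.Agent.T1K.KerE

/-! # T1, row R8: volumes and distribution functions at the target -/

set_option autoImplicit false

open MeasureTheory Set

namespace Pool.Agent.Helper57.T1

open Pool.Agent.T1K

variable {R σ : ℕ} {T S T' S' : Finset ℕ} {x y b t : ℝ} {z z2 : ℕ} {l : ℕ → ZMod 3}

lemma mem_TL_le (R : ℕ) (l : ℕ → ZMod 3) : ∀ z ∈ TL R l, z ≤ Mn R := by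
  intro z hz
  unfold TL TS at hz
  rw [Finset.mem_union, Finset.mem_filter, Finset.mem_range, Finset.mem_singleton] at hz
  have : R * 3 ^ 11 ≤ Mn R := by unfold Mn; omega
  omega

/-- the common sum of the elements of the tick sets -/
def sg1 (R : ℕ) : ℕ := ∑ z ∈ TL R 0, z

lemma sum_TL (R : ℕ) (l : ℕ → ZMod 3) : ∑ z ∈ TL R l, z = sg1 R := by
  have h := EP_TL (r := 1) (by norm_num) R l 0 0 1 1 le_rfl
  simp only [zero_add, one_mul, pow_one] at h
  have h2 : ((∑ z ∈ TL R l, z : ℕ) : ℤ) = ((∑ z ∈ TL R 0, z : ℕ) : ℤ) := by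
    rw [Nat.cast_sum, Nat.cast_sum]
    exact h
  exact Nat.cast_injective h2

theorem sp (hR : 1 ≤ R) (l l' : ℕ → ZMod 3) : Sp R (sg1 R) (TL R l) (TL R l') :=
  ⟨hR, card_TL R l, card_TL R l', mem_TL_le R l, mem_TL_le R l', sum_TL R l, sum_TL R l'⟩

section
variable (hp : Sp R σ T S)
include hp

lemma Sp.DD_le : DD R ≤ 100 / 95 * Vol (tk R) (tk R) T S := by
  have := hp.Vol_ge
  linarith

lemma Sp.cdf_X : ∫ t in (0 : ℝ)..(tk R (Mn R)), dX (tk R) (tk R) T S t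
    ≤ 1 / 20 * Vol (tk R) (tk R) T S := by
  have h1 := hp.dX_tick (z := Mn R) le_rfl
  have h2 := hp.DD_le
  have h3 := hp.Vol_pos
  linarith

lemma Sp.tk_small : tk R (Mn R) ≤ 1 / 1000000 := by
  have h2 := tk_le hp.hR (z := Mn R) le_rfl
  have h3 := an_le hp.hR
  linarith

lemma Sp.cdf_X' : ∫ t in (1 - tk R (Mn R))..1, dX (tk R) (tk R) T S t
    ≤ 1 / 20 * Vol (tk R) (tk R) T S := by
  have h0 := hp.tk_small
  have h00 : 0 ≤ tk R (Mn R) := (an_pos hp.hR).le.trans (tk_nonneg hp.hR _)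
  have h1 := hp.dX_tail
  have h2 := hp.DD_le
  have h3 := hp.Vol_pos
  have hi : IntervalIntegrable (dX (tk R) (tk R) T S) volume 0 1 :=
    (cont_dX _ _ _ _).intervalIntegrable _ _
  have h4 := intervalIntegral.integral_add_adjacent_intervals
    (sub_int hi (by norm_num : (0 : ℝ) ≤ 1 / 8) (by linarith : (1 / 8 : ℝ) ≤ 1 - tk R (Mn R)) (by linarith))
    (sub_int hi (by linarith : (0 : ℝ) ≤ 1 - tk R (Mn R)) (by linarith) le_rfl)
  have h5 : 0 ≤ ∫ t in (1 / 8 : ℝ)..(1 - tk R (Mn R)), dX (tk R) (tk R) T S t :=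
    intervalIntegral.integral_nonneg (by linarith) fun t _ => Helper57.T1.dX_nonneg t
  linarith

lemma Sp.cdf_L (hz : z ∈ T) : ∫ t in (0 : ℝ)..(tk R (Mn R)), dL (tk R) (tk R) T S z t
    ≤ 1 / 20 * Vol (tk R) (tk R) T S := by
  have h0 := hp.tk_small
  have h00 : 0 ≤ tk R (Mn R) := (an_pos hp.hR).le.trans (tk_nonneg hp.hR _)
  have h1 := hp.dL_int hz le_rfl h00 (by linarith)
  have h2 := hp.DD_le
  have h3 := hp.Vol_pos
  have h4 := DD_pos R
  nlinarith

lemma Sp.cdf_L' (hz : z ∈ T) : ∫ t in (1 - tk R (Mn R))..1, dL (tk R) (tk R) T S z t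
    ≤ 1 / 20 * Vol (tk R) (tk R) T S := by
  have h0 := hp.tk_small
  have h00 : 0 ≤ tk R (Mn R) := (an_pos hp.hR).le.trans (tk_nonneg hp.hR _)
  have h1 := hp.dL_int hz (u := 1 - tk R (Mn R)) (v := 1) (by linarith) (by linarith) le_rfl
  have h2 := hp.DD_le
  have h3 := hp.Vol_pos
  have h4 := DD_pos R
  nlinarith

lemma Sp.vol_lower : 1 / (1000 * (Kn R : ℝ) ^ 2) ≤ Vol (tk R) (tk R) T S := by
  have h1 := hp.Vol_ge
  have h2 := Kn_ge hp.hR
  refine le_trans ?_ h1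
  unfold DD
  rw [← mul_one_div_cancel (by norm_num : (1000 : ℝ) ≠ 0)] 
  rw [mul_one_div_cancel (by norm_num : (1000 : ℝ) ≠ 0), mul_one_div,
    div_le_div_iff₀ (by positivity) (by positivity)]
  nlinarith

end

end Pool.Agent.Helper57.T1
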